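import Mathlib

/-!
# Assignment of the directions to the stages

The random map `u : D → Fin (2 ^ (J + 1))` gives the stage `c d = Nat.log 2 (u d)`; a stage `t ≤ J`
is met with probability at least `2 ^ t / 2 ^ (J + 1)`. The exponential moment of the number of
directions of `F x` of stage `t` and the union bound over `x` and `t` give an assignment for which
every `F x` has a quarter of the expected number of directions of every stage.
-/

namespace H19NB

open Finset

/-- `exp (-1) ≤ 1 / 2`. -/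
private theorem exp_neg_one_le_half : Real.exp (-1) ≤ 1 / 2 := by
  have h1 : (2 : ℝ) ≤ Real.exp 1 := by
    have := Real.add_one_le_exp (1 : ℝ)
    linarith
  rw [Real.exp_neg]
  have h2 : (Real.exp 1)⁻¹ ≤ (2 : ℝ)⁻¹ := inv_anti₀ (by norm_num) h1
  linarith

/-- The number of values of stage `t` is at least `2 ^ t`. -/
private theorem card_stage (J t : ℕ) (ht : t ≤ J) :
    2 ^ t ≤ ((univ : Finset (Fin (2 ^ (J + 1)))).filter
      (fun u : Fin (2 ^ (J + 1)) => Nat.log 2 (u : ℕ) = t)).card := by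
  classical
  have hlt : 2 ^ (t + 1) ≤ 2 ^ (J + 1) := Nat.pow_le_pow_right (by norm_num) (by omega)
  have hpow : 2 ^ (t + 1) = 2 ^ t + 2 ^ t := by ring
  have hinj : (Finset.range (2 ^ t)).card ≤ ((univ : Finset (Fin (2 ^ (J + 1)))).filter
      (fun u : Fin (2 ^ (J + 1)) => Nat.log 2 (u : ℕ) = t)).card := by
    refine Finset.card_le_card_of_injOn
      (fun i => if h : 2 ^ t + i < 2 ^ (J + 1) then (⟨2 ^ t + i, h⟩ : Fin (2 ^ (J + 1)))
        else ⟨0, by positivity⟩) ?_ ?_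
    · intro i hi
      have hi' : i < 2 ^ t := by simpa using hi
      have h : 2 ^ t + i < 2 ^ (J + 1) := by omega
      simp only [h, dite_true, Finset.coe_filter, Finset.mem_univ, true_and, Set.mem_ofPred_eq]
      exact Nat.log_eq_of_pow_le_of_lt_pow (by omega) (by omega)
    · intro i hi j hj hij
      have hi' : i < 2 ^ t := by simpa using hi
      have hj' : j < 2 ^ t := by simpa using hj
      have h1 : 2 ^ t + i < 2 ^ (J + 1) := by omega
      have h2 : 2 ^ t + j < 2 ^ (J + 1) := by omega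
      simp only [h1, h2, dite_true, Fin.mk.injEq] at hij
      omega
  simpa using hinj

/-- The exponential moment of one direction. -/
private theorem sum_stage (J t : ℕ) (ht : t ≤ J) :
    (∑ u : Fin (2 ^ (J + 1)), Real.exp (if Nat.log 2 (u : ℕ) = t then -1 else 0)) ≤
      (2 : ℝ) ^ (J + 1) * Real.exp (-((2 : ℝ) ^ t / (2 * 2 ^ (J + 1)))) := by
  classical
  have hM : (0 : ℝ) < 2 ^ (J + 1) := by positivity
  have h1 : (∑ u : Fin (2 ^ (J + 1)), Real.exp (if Nat.log 2 (u : ℕ) = t then -1 else 0)) ≤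
      ∑ u : Fin (2 ^ (J + 1)), ((1 : ℝ) - if Nat.log 2 (u : ℕ) = t then 1 / 2 else 0) := by
    refine Finset.sum_le_sum fun u _ => ?_
    split_ifs
    · have := exp_neg_one_le_half
      linarith
    · simp
  refine h1.trans ?_
  rw [Finset.sum_sub_distrib, ← Finset.sum_filter]
  simp only [Finset.sum_const, Finset.card_univ, Fintype.card_fin, nsmul_eq_mul, mul_one]
  have hc := card_stage J t ht
  have hc' : (2 : ℝ) ^ t ≤ (((univ : Finset (Fin (2 ^ (J + 1)))).filter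
      (fun u : Fin (2 ^ (J + 1)) => Nat.log 2 (u : ℕ) = t)).card : ℝ) := by
    exact_mod_cast hc
  have h2 := Real.add_one_le_exp (-((2 : ℝ) ^ t / (2 * 2 ^ (J + 1))))
  have h3 : (2 : ℝ) ^ (J + 1) * (-((2 : ℝ) ^ t / (2 * 2 ^ (J + 1))) + 1) =
      2 ^ (J + 1) - 2 ^ t / 2 := by
    field_simp
    ring
  have h4 := mul_le_mul_of_nonneg_left h2 hM.le
  push_cast
  linarith

/-- The exponential moment of the number of directions of `F x` of stage `t`. -/
private theorem sum_all {D : Type} [Fintype D] [DecidableEq D] (A : Finset D) (J t : ℕ)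
    (ht : t ≤ J) :
    (∑ e : D → Fin (2 ^ (J + 1)),
      Real.exp (-((A.filter (fun d => Nat.log 2 (e d : ℕ) = t)).card : ℝ))) ≤
      ((2 : ℝ) ^ (J + 1)) ^ Fintype.card D *
        Real.exp (-((A.card : ℝ) * (2 ^ t / (2 * 2 ^ (J + 1))))) := by
  classical
  have h1 : ∀ e : D → Fin (2 ^ (J + 1)),
      Real.exp (-((A.filter (fun d => Nat.log 2 (e d : ℕ) = t)).card : ℝ)) =
      ∏ d : D, (if d ∈ A then Real.exp (if Nat.log 2 (e d : ℕ) = t then -1 else 0) else 1) := by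
    intro e
    rw [Finset.prod_ite_mem, Finset.univ_inter, ← Real.exp_sum]
    congr 1
    rw [← Finset.sum_filter, Finset.sum_const, nsmul_eq_mul]
    ring
  rw [Finset.sum_congr rfl fun e _ => h1 e]
  have h2 := Finset.prod_univ_sum (fun _ : D => (univ : Finset (Fin (2 ^ (J + 1)))))
    (fun d u => if d ∈ A then Real.exp (if Nat.log 2 (u : ℕ) = t then -1 else 0) else 1)
  rw [Fintype.piFinset_univ] at h2
  rw [← h2]
  have h3 : ∀ d : D, (∑ u : Fin (2 ^ (J + 1)),
      (if d ∈ A then Real.exp (if Nat.log 2 (u : ℕ) = t then -1 else 0) else 1)) ≤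
      (2 : ℝ) ^ (J + 1) * (if d ∈ A then Real.exp (-((2 : ℝ) ^ t / (2 * 2 ^ (J + 1)))) else 1) := by
    intro d
    by_cases hd : d ∈ A
    · simp only [hd, if_true]
      exact sum_stage J t ht
    · simp [hd]
  refine (Finset.prod_le_prod (fun d _ => Finset.sum_nonneg fun u _ => ?_) fun d _ => h3 d).trans ?_
  · split_ifs <;> positivity
  · rw [Finset.prod_mul_distrib, Finset.prod_const, Finset.card_univ, Finset.prod_ite_mem,
      Finset.univ_inter, Finset.prod_const, ← Real.exp_nat_mul]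
    refine le_of_eq ?_
    congr 2
    ring

/-- **The assignment.** -/
theorem assign {D X : Type} [Fintype D] [DecidableEq D] [Fintype X] (F : X → Finset D)
    (Xo : Finset X) (n J : ℕ) (hn : ∀ x ∈ Xo, n ≤ (F x).card)
    (hX : ((Xo.card : ℝ) + 1) * (J + 1) < Real.exp (n / (4 * 2 ^ (J + 1)))) :
    ∃ c : D → ℕ, ∀ x ∈ Xo, ∀ t ≤ J,
      (n : ℝ) * 2 ^ t / (4 * 2 ^ (J + 1)) ≤ (((F x).filter (fun d => c d = t)).card : ℝ) := by
  classical
  by_contra hcon
  push Not at hcon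
  have hM : (0 : ℝ) < 2 ^ (J + 1) := by positivity
  have hM' : (0 : ℝ) < ((2 : ℝ) ^ (J + 1)) ^ Fintype.card D := by positivity
  -- every map has a bad pair
  have h1 : ∀ e : D → Fin (2 ^ (J + 1)), (1 : ℝ) ≤ ∑ x ∈ Xo, ∑ t ∈ Finset.range (J + 1),
      Real.exp ((n : ℝ) * 2 ^ t / (4 * 2 ^ (J + 1))) *
        Real.exp (-(((F x).filter (fun d => Nat.log 2 (e d : ℕ) = t)).card : ℝ)) := by
    intro e
    obtain ⟨x, hx, t, ht, hlt⟩ := hcon (fun d => Nat.log 2 (e d : ℕ))
    have h2 : (1 : ℝ) ≤ Real.exp ((n : ℝ) * 2 ^ t / (4 * 2 ^ (J + 1))) *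
        Real.exp (-(((F x).filter (fun d => Nat.log 2 (e d : ℕ) = t)).card : ℝ)) := by
      rw [← Real.exp_add]
      exact Real.one_le_exp (by linarith)
    have h3 : Real.exp ((n : ℝ) * 2 ^ t / (4 * 2 ^ (J + 1))) *
        Real.exp (-(((F x).filter (fun d => Nat.log 2 (e d : ℕ) = t)).card : ℝ)) ≤
        ∑ t ∈ Finset.range (J + 1), Real.exp ((n : ℝ) * 2 ^ t / (4 * 2 ^ (J + 1))) *
        Real.exp (-(((F x).filter (fun d => Nat.log 2 (e d : ℕ) = t)).card : ℝ)) :=
      Finset.single_le_sum (f := fun t => Real.exp ((n : ℝ) * 2 ^ t / (4 * 2 ^ (J + 1))) *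
        Real.exp (-(((F x).filter (fun d => Nat.log 2 (e d : ℕ) = t)).card : ℝ)))
        (fun i _ => by positivity) (Finset.mem_range.2 (by omega))
    have h4 : (∑ t ∈ Finset.range (J + 1), Real.exp ((n : ℝ) * 2 ^ t / (4 * 2 ^ (J + 1))) *
        Real.exp (-(((F x).filter (fun d => Nat.log 2 (e d : ℕ) = t)).card : ℝ))) ≤
        ∑ x ∈ Xo, ∑ t ∈ Finset.range (J + 1), Real.exp ((n : ℝ) * 2 ^ t / (4 * 2 ^ (J + 1))) *
        Real.exp (-(((F x).filter (fun d => Nat.log 2 (e d : ℕ) = t)).card : ℝ)) :=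
      Finset.single_le_sum (f := fun x => ∑ t ∈ Finset.range (J + 1),
        Real.exp ((n : ℝ) * 2 ^ t / (4 * 2 ^ (J + 1))) *
        Real.exp (-(((F x).filter (fun d => Nat.log 2 (e d : ℕ) = t)).card : ℝ)))
        (fun i _ => by positivity) hx
    linarith
  have h2 : ((2 : ℝ) ^ (J + 1)) ^ Fintype.card D ≤ ∑ e : D → Fin (2 ^ (J + 1)),
      ∑ x ∈ Xo, ∑ t ∈ Finset.range (J + 1),
      Real.exp ((n : ℝ) * 2 ^ t / (4 * 2 ^ (J + 1))) *
        Real.exp (-(((F x).filter (fun d => Nat.log 2 (e d : ℕ) = t)).card : ℝ)) := by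
    have h3 := Finset.sum_le_sum (s := (univ : Finset (D → Fin (2 ^ (J + 1)))))
      (fun e _ => h1 e)
    simpa using h3
  have h3 : (∑ e : D → Fin (2 ^ (J + 1)),
      ∑ x ∈ Xo, ∑ t ∈ Finset.range (J + 1),
      Real.exp ((n : ℝ) * 2 ^ t / (4 * 2 ^ (J + 1))) *
        Real.exp (-(((F x).filter (fun d => Nat.log 2 (e d : ℕ) = t)).card : ℝ))) ≤
      ∑ x ∈ Xo, ∑ t ∈ Finset.range (J + 1), ((2 : ℝ) ^ (J + 1)) ^ Fintype.card D *
        Real.exp (-((n : ℝ) / (4 * 2 ^ (J + 1)))) := by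
    rw [Finset.sum_comm]
    refine Finset.sum_le_sum fun x hx => ?_
    rw [Finset.sum_comm]
    refine Finset.sum_le_sum fun t ht => ?_
    rw [← Finset.mul_sum]
    have ht' : t ≤ J := by
      have := Finset.mem_range.1 ht
      omega
    have h4 := sum_all (F x) J t ht'
    have h5 : Real.exp (-(((F x).card : ℝ) * (2 ^ t / (2 * 2 ^ (J + 1))))) ≤
        Real.exp (-((n : ℝ) * (2 ^ t / (2 * 2 ^ (J + 1))))) := by
      refine Real.exp_le_exp.2 (neg_le_neg ?_)
      have : (n : ℝ) ≤ ((F x).card : ℝ) := by exact_mod_cast hn x hx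
      exact mul_le_mul_of_nonneg_right this (by positivity)
    have h6 : Real.exp ((n : ℝ) * 2 ^ t / (4 * 2 ^ (J + 1))) *
        Real.exp (-((n : ℝ) * (2 ^ t / (2 * 2 ^ (J + 1))))) ≤
        Real.exp (-((n : ℝ) / (4 * 2 ^ (J + 1)))) := by
      rw [← Real.exp_add]
      refine Real.exp_le_exp.2 ?_
      have h7 : (n : ℝ) * 2 ^ t / (4 * 2 ^ (J + 1)) + -((n : ℝ) * (2 ^ t / (2 * 2 ^ (J + 1)))) =
          -((n : ℝ) * 2 ^ t / (4 * 2 ^ (J + 1))) := by
        field_simp
        ring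
      rw [h7]
      refine neg_le_neg ?_
      have h8 : (1 : ℝ) ≤ 2 ^ t := one_le_pow₀ (by norm_num)
      refine div_le_div_of_nonneg_right ?_ (by positivity)
      nlinarith [Nat.cast_nonneg (α := ℝ) n]
    calc Real.exp ((n : ℝ) * 2 ^ t / (4 * 2 ^ (J + 1))) * ∑ e : D → Fin (2 ^ (J + 1)),
          Real.exp (-(((F x).filter (fun d => Nat.log 2 (e d : ℕ) = t)).card : ℝ))
        ≤ Real.exp ((n : ℝ) * 2 ^ t / (4 * 2 ^ (J + 1))) *
          (((2 : ℝ) ^ (J + 1)) ^ Fintype.card D *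
            Real.exp (-((n : ℝ) * (2 ^ t / (2 * 2 ^ (J + 1)))))) := by
          refine mul_le_mul_of_nonneg_left (h4.trans ?_) (by positivity)
          exact mul_le_mul_of_nonneg_left h5 hM'.le
      _ = ((2 : ℝ) ^ (J + 1)) ^ Fintype.card D *
          (Real.exp ((n : ℝ) * 2 ^ t / (4 * 2 ^ (J + 1))) *
            Real.exp (-((n : ℝ) * (2 ^ t / (2 * 2 ^ (J + 1)))))) := by ring
      _ ≤ ((2 : ℝ) ^ (J + 1)) ^ Fintype.card D *
        Real.exp (-((n : ℝ) / (4 * 2 ^ (J + 1)))) :=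
          mul_le_mul_of_nonneg_left h6 hM'.le
  have h4 := h2.trans h3
  simp only [Finset.sum_const, Finset.card_range, nsmul_eq_mul] at h4
  have hpos := Real.exp_pos ((n : ℝ) / (4 * 2 ^ (J + 1)))
  rw [Real.exp_neg] at h4
  have h5 : (Xo.card : ℝ) * ((J + 1 : ℕ) * (((2 : ℝ) ^ (J + 1)) ^ Fintype.card D *
      (Real.exp ((n : ℝ) / (4 * 2 ^ (J + 1))))⁻¹)) =
      ((2 : ℝ) ^ (J + 1)) ^ Fintype.card D * ((Xo.card : ℝ) * ((J : ℝ) + 1) /
      Real.exp ((n : ℝ) / (4 * 2 ^ (J + 1)))) := by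
    push_cast
    field_simp
  rw [h5] at h4
  have h6 : (Xo.card : ℝ) * ((J : ℝ) + 1) / Real.exp ((n : ℝ) / (4 * 2 ^ (J + 1))) < 1 := by
    rw [div_lt_one hpos]
    have : (0 : ℝ) ≤ (J : ℝ) + 1 := by positivity
    linarith
  have h7 := mul_lt_mul_of_pos_left h6 hM'
  linarith

end H19NB
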