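import Mathlib

/-!
# [H19 NB CHE] Second moments for the number of events which occur
-/

set_option autoImplicit false
set_option linter.unusedSectionVars false

namespace H19NB

open Finset

variable {Ω I : Type} [DecidableEq Ω]

/-- the number of the events which occur -/
def Zc (Is : Finset I) (E : I → Finset Ω) (ω : Ω) : ℕ := (Is.filter (fun i => ω ∈ E i)).card

private theorem sum_Z (Ω' : Finset Ω) (Is : Finset I) (E : I → Finset Ω) (hE : ∀ i ∈ Is, E i ⊆ Ω') :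
    ∑ ω ∈ Ω', (Zc Is E ω : ℝ) = ∑ i ∈ Is, ((E i).card : ℝ) := by
  have h1 : ∑ ω ∈ Ω', Zc Is E ω = ∑ i ∈ Is, (E i).card := by
    unfold Zc
    simp_rw [Finset.card_filter]
    rw [Finset.sum_comm]
    refine Finset.sum_congr rfl fun i hi => ?_
    rw [← Finset.card_filter]
    congr 1
    ext ω
    rw [Finset.mem_filter]
    exact ⟨fun h => h.2, fun h => ⟨hE i hi h, h⟩⟩
  exact_mod_cast h1

private theorem sum_Z2 (Ω' : Finset Ω) (Is : Finset I) (E : I → Finset Ω) (hE : ∀ i ∈ Is, E i ⊆ Ω') :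
    ∑ ω ∈ Ω', (Zc Is E ω : ℝ) ^ 2 = ∑ i ∈ Is, ∑ j ∈ Is, ((E i ∩ E j).card : ℝ) := by
  have h1 : ∑ ω ∈ Ω', Zc Is E ω ^ 2 = ∑ i ∈ Is, ∑ j ∈ Is, (E i ∩ E j).card := by
    have h2 : ∀ ω, Zc Is E ω ^ 2 = ∑ i ∈ Is, ∑ j ∈ Is, if ω ∈ E i ∧ ω ∈ E j then 1 else 0 := by
      intro ω
      unfold Zc
      rw [sq, Finset.card_filter, Finset.sum_mul_sum]
      refine Finset.sum_congr rfl fun i _ => Finset.sum_congr rfl fun j _ => ?_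
      by_cases h3 : ω ∈ E i
      · by_cases h4 : ω ∈ E j
        · simp [h3, h4]
        · simp [h3, h4]
      · simp [h3]
    simp_rw [h2]
    rw [Finset.sum_comm]
    refine Finset.sum_congr rfl fun i hi => ?_
    rw [Finset.sum_comm]
    refine Finset.sum_congr rfl fun j hj => ?_
    rw [← Finset.card_filter]
    congr 1
    ext ω
    rw [Finset.mem_filter, Finset.mem_inter]
    exact ⟨fun h => h.2, fun h => ⟨hE i hi h.1, h⟩⟩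
  exact_mod_cast h1

/-- second moment around `M` -/
theorem second_moment (Ω' : Finset Ω) (Is : Finset I) (E : I → Finset Ω) (hE : ∀ i ∈ Is, E i ⊆ Ω')
    (M κ w ζ A : ℝ) (hM : 0 ≤ M) (h0 : (Ω'.card : ℝ) ≤ κ * w)
    (h1 : M * κ * (1 - ζ) * w ≤ ∑ i ∈ Is, ((E i).card : ℝ))
    (h2 : ∑ i ∈ Is, ∑ j ∈ Is, ((E i ∩ E j).card : ℝ) ≤ (M ^ 2 * κ * (1 + ζ) + A) * w) :
    ∑ ω ∈ Ω', ((Zc Is E ω : ℝ) - M) ^ 2 ≤ (3 * ζ * M ^ 2 * κ + A) * w := by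
  have h3 : ∑ ω ∈ Ω', ((Zc Is E ω : ℝ) - M) ^ 2 = ∑ ω ∈ Ω', (Zc Is E ω : ℝ) ^ 2 -
      2 * M * ∑ ω ∈ Ω', (Zc Is E ω : ℝ) + M ^ 2 * Ω'.card := by
    have h4 : M ^ 2 * (Ω'.card : ℝ) = ∑ ω ∈ Ω', M ^ 2 := by
      rw [Finset.sum_const, nsmul_eq_mul]
      ring
    rw [h4, Finset.mul_sum, ← Finset.sum_sub_distrib, ← Finset.sum_add_distrib]
    refine Finset.sum_congr rfl fun ω _ => ?_
    ring
  rw [h3, sum_Z2 Ω' Is E hE, sum_Z Ω' Is E hE]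
  have h4 : 2 * M * (M * κ * (1 - ζ) * w) ≤ 2 * M * ∑ i ∈ Is, ((E i).card : ℝ) :=
    mul_le_mul_of_nonneg_left h1 (by linarith)
  have h5 : M ^ 2 * (Ω'.card : ℝ) ≤ M ^ 2 * (κ * w) := mul_le_mul_of_nonneg_left h0 (sq_nonneg M)
  have h6 : (M ^ 2 * κ * (1 + ζ) + A) * w - 2 * M * (M * κ * (1 - ζ) * w) + M ^ 2 * (κ * w) =
      (3 * ζ * M ^ 2 * κ + A) * w := by ring
  linarith

/-- lower tail -/
theorem tail_low (Ω' : Finset Ω) (Is : Finset I) (E : I → Finset Ω) (hE : ∀ i ∈ Is, E i ⊆ Ω')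
    (M κ w ζ A a : ℝ) (hM : 0 ≤ M) (ha : 0 ≤ a) (h0 : (Ω'.card : ℝ) ≤ κ * w)
    (h1 : M * κ * (1 - ζ) * w ≤ ∑ i ∈ Is, ((E i).card : ℝ))
    (h2 : ∑ i ∈ Is, ∑ j ∈ Is, ((E i ∩ E j).card : ℝ) ≤ (M ^ 2 * κ * (1 + ζ) + A) * w) :
    ((Ω'.filter (fun ω => (Zc Is E ω : ℝ) < M - a)).card : ℝ) * a ^ 2 ≤ (3 * ζ * M ^ 2 * κ + A) * w := by
  refine le_trans ?_ (second_moment Ω' Is E hE M κ w ζ A hM h0 h1 h2)
  calc ((Ω'.filter (fun ω => (Zc Is E ω : ℝ) < M - a)).card : ℝ) * a ^ 2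
      = ∑ ω ∈ Ω'.filter (fun ω => (Zc Is E ω : ℝ) < M - a), a ^ 2 := by
        rw [Finset.sum_const, nsmul_eq_mul]
    _ ≤ ∑ ω ∈ Ω'.filter (fun ω => (Zc Is E ω : ℝ) < M - a), ((Zc Is E ω : ℝ) - M) ^ 2 := by
        refine Finset.sum_le_sum fun ω hω => ?_
        have h3 := (Finset.mem_filter.1 hω).2
        have h4 : a ^ 2 ≤ (M - (Zc Is E ω : ℝ)) ^ 2 := pow_le_pow_left₀ ha (by linarith) 2
        calc a ^ 2 ≤ (M - (Zc Is E ω : ℝ)) ^ 2 := h4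
          _ = ((Zc Is E ω : ℝ) - M) ^ 2 := by ring
    _ ≤ ∑ ω ∈ Ω', ((Zc Is E ω : ℝ) - M) ^ 2 :=
        Finset.sum_le_sum_of_subset_of_nonneg (Finset.filter_subset _ _) fun ω _ _ => sq_nonneg _

/-- upper tail -/
theorem tail_up (Ω' : Finset Ω) (Is : Finset I) (E : I → Finset Ω) (hE : ∀ i ∈ Is, E i ⊆ Ω')
    (M κ w ζ A a : ℝ) (hM : 0 ≤ M) (ha : 0 ≤ a) (h0 : (Ω'.card : ℝ) ≤ κ * w)
    (h1 : M * κ * (1 - ζ) * w ≤ ∑ i ∈ Is, ((E i).card : ℝ))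
    (h2 : ∑ i ∈ Is, ∑ j ∈ Is, ((E i ∩ E j).card : ℝ) ≤ (M ^ 2 * κ * (1 + ζ) + A) * w) :
    ((Ω'.filter (fun ω => M + a < (Zc Is E ω : ℝ))).card : ℝ) * a ^ 2 ≤ (3 * ζ * M ^ 2 * κ + A) * w := by
  refine le_trans ?_ (second_moment Ω' Is E hE M κ w ζ A hM h0 h1 h2)
  calc ((Ω'.filter (fun ω => M + a < (Zc Is E ω : ℝ))).card : ℝ) * a ^ 2
      = ∑ ω ∈ Ω'.filter (fun ω => M + a < (Zc Is E ω : ℝ)), a ^ 2 := by
        rw [Finset.sum_const, nsmul_eq_mul]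
    _ ≤ ∑ ω ∈ Ω'.filter (fun ω => M + a < (Zc Is E ω : ℝ)), ((Zc Is E ω : ℝ) - M) ^ 2 := by
        refine Finset.sum_le_sum fun ω hω => ?_
        have h3 := (Finset.mem_filter.1 hω).2
        exact pow_le_pow_left₀ ha (by linarith) 2
    _ ≤ ∑ ω ∈ Ω', ((Zc Is E ω : ℝ) - M) ^ 2 :=
        Finset.sum_le_sum_of_subset_of_nonneg (Finset.filter_subset _ _) fun ω _ _ => sq_nonneg _

end H19NB
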