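import Mathlib

/-!
# [H19 NB PRD] The probability that a set of atoms survives a random choice

`T d x = some i`: the atom `x` is hit at the part `d` if the choice there is `i`. `missN T S`: the choices which hit no
atom of `S`. If every atom has exactly `n` relevant parts and two atoms agree in at most `g` parts, then the
fraction is `q ^ |S|` up to a small relative error, `q = (1 - 1 / N) ^ n`.
-/

set_option autoImplicit false
set_option linter.unusedSectionVars false

namespace H19NB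

open Finset

variable {D X : Type} [Fintype D] [DecidableEq D] [DecidableEq X] {N : ℕ}

/-- the choices which hit no atom of `S` -/
def missN (T : D → X → Option (Fin N)) (S : Finset X) : Finset (D → Fin N) :=
  univ.filter (fun e => ∀ x ∈ S, ∀ d, T d x ≠ some (e d))

/-- the number of values at `d` which hit `S` -/
def nd (T : D → X → Option (Fin N)) (S : Finset X) (d : D) : ℕ :=
  (univ.filter (fun i : Fin N => ∃ x ∈ S, T d x = some i)).card

theorem mem_missN {T : D → X → Option (Fin N)} {S : Finset X} {e : D → Fin N} :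
    e ∈ missN T S ↔ ∀ x ∈ S, ∀ d, T d x ≠ some (e d) := by
  unfold missN
  rw [Finset.mem_filter]
  exact ⟨fun h => h.2, fun h => ⟨Finset.mem_univ _, h⟩⟩

theorem missN_mono {T : D → X → Option (Fin N)} {S S' : Finset X} (h : S ⊆ S') : missN T S' ⊆ missN T S := by
  intro e he
  rw [mem_missN] at he ⊢
  exact fun x hx => he x (h hx)

theorem missN_union (T : D → X → Option (Fin N)) (S S' : Finset X) :
    missN T (S ∪ S') = missN T S ∩ missN T S' := by
  ext e
  rw [Finset.mem_inter, mem_missN, mem_missN, mem_missN]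
  constructor
  · intro h
    exact ⟨fun x hx => h x (Finset.mem_union_left _ hx), fun x hx => h x (Finset.mem_union_right _ hx)⟩
  · rintro ⟨h1, h2⟩ x hx
    rcases Finset.mem_union.1 hx with h | h
    · exact h1 x h
    · exact h2 x h

theorem nd_le (T : D → X → Option (Fin N)) (S : Finset X) (d : D) : nd T S d ≤ N := by
  have := Finset.card_le_univ (univ.filter (fun i : Fin N => ∃ x ∈ S, T d x = some i))
  rwa [Fintype.card_fin] at this

theorem card_missN (T : D → X → Option (Fin N)) (S : Finset X) :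
    (missN T S).card = ∏ d, (N - nd T S d) := by
  have h1 : missN T S = Fintype.piFinset (fun d => univ.filter (fun i : Fin N => ¬ ∃ x ∈ S, T d x = some i)) := by
    ext e
    rw [mem_missN, Fintype.mem_piFinset]
    constructor
    · intro h d
      rw [Finset.mem_filter]
      refine ⟨Finset.mem_univ _, ?_⟩
      rintro ⟨x, hx, h2⟩
      exact h x hx d h2
    · intro h x hx d h2
      exact (Finset.mem_filter.1 (h d)).2 ⟨x, hx, h2⟩
  rw [h1, Fintype.card_piFinset]
  refine Finset.prod_congr rfl fun d _ => ?_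
  have h2 := Finset.card_filter_add_card_filter_not (s := (univ : Finset (Fin N)))
    (fun i : Fin N => ∃ x ∈ S, T d x = some i)
  rw [Finset.card_univ, Fintype.card_fin] at h2
  unfold nd
  omega

/-- the number of the relevant values, from below by the pairs which agree -/
private theorem nd_ge (T : D → X → Option (Fin N)) (S : Finset X) (d : D) :
    (S.filter (fun x => T d x ≠ none)).card ≤ nd T S d +
      ((S ×ˢ S).filter (fun y => y.1 ≠ y.2 ∧ T d y.1 = T d y.2 ∧ T d y.1 ≠ none)).card := by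
  classical
  obtain ⟨A, hA⟩ : ∃ A, A = S.filter (fun x => T d x ≠ none) := ⟨_, rfl⟩
  have hAm : ∀ x, x ∈ A ↔ x ∈ S ∧ T d x ≠ none := by
    intro x
    rw [hA, Finset.mem_filter]
  rw [← hA]
  have hrep : ∀ i : Option (Fin N), ∃ y : Option X, ∀ x ∈ A, T d x = i → ∃ z ∈ A, y = some z ∧ T d z = i := by
    intro i
    by_cases h : ∃ x ∈ A, T d x = i
    · obtain ⟨x, hx, h1⟩ := h
      exact ⟨some x, fun _ _ _ => ⟨x, hx, rfl, h1⟩⟩
    · exact ⟨none, fun x hx h1 => absurd ⟨x, hx, h1⟩ h⟩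
  choose rep hrep using hrep
  have h1 : (A.filter (fun x => rep (T d x) = some x)).card ≤ nd T S d := by
    have h2 : ((A.filter (fun x => rep (T d x) = some x)).image (T d)).card ≤ nd T S d := by
      unfold nd
      rw [← Finset.card_map ⟨(some : Fin N → Option (Fin N)), Option.some_injective _⟩]
      refine Finset.card_le_card fun i hi => ?_
      obtain ⟨x, hx, rfl⟩ := Finset.mem_image.1 hi
      obtain ⟨hxS, hxn⟩ := (hAm x).1 (Finset.mem_filter.1 hx).1
      obtain ⟨i, hi⟩ := Option.ne_none_iff_exists'.1 hxn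
      rw [Finset.mem_map]
      exact ⟨i, Finset.mem_filter.2 ⟨Finset.mem_univ _, x, hxS, hi⟩, hi.symm⟩
    refine le_trans (le_of_eq (Finset.card_image_of_injOn ?_).symm) h2
    intro x hx y hy hxy
    have h3 := (Finset.mem_filter.1 hx).2
    have h4 := (Finset.mem_filter.1 hy).2
    have h5 : rep (T d x) = rep (T d y) := by rw [show T d x = T d y from hxy]
    rw [h3, h4] at h5
    exact Option.some_injective _ h5
  have h2 : (A.filter (fun x => ¬ rep (T d x) = some x)).card ≤
      ((S ×ˢ S).filter (fun y => y.1 ≠ y.2 ∧ T d y.1 = T d y.2 ∧ T d y.1 ≠ none)).card := by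
    refine Finset.card_le_card_of_injOn (fun x => (x, (rep (T d x)).getD x)) ?_ ?_
    · intro x hx
      obtain ⟨hxA, hxr⟩ := Finset.mem_filter.1 hx
      obtain ⟨z, hz, h3, h4⟩ := hrep (T d x) x hxA rfl
      obtain ⟨hxS, hxn⟩ := (hAm x).1 hxA
      show (x, (rep (T d x)).getD x) ∈
        ((S ×ˢ S).filter (fun y => y.1 ≠ y.2 ∧ T d y.1 = T d y.2 ∧ T d y.1 ≠ none) : Finset (X × X))
      rw [h3, Option.getD_some, Finset.mem_filter, Finset.mem_product]
      refine ⟨⟨hxS, ((hAm z).1 hz).1⟩, ?_, h4.symm, hxn⟩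
      intro hxz
      have hxz' : x = z := hxz
      rw [← hxz'] at h3
      exact hxr h3
    · intro x _ y _ hxy
      exact (Prod.mk.inj hxy).1
  have h3 := Finset.card_filter_add_card_filter_not (s := A) (fun x => rep (T d x) = some x)
  omega

theorem nd_up (T : D → X → Option (Fin N)) (S : Finset X) (d : D) :
    nd T S d ≤ (S.filter (fun x => T d x ≠ none)).card := by
  unfold nd
  rw [← Finset.card_map ⟨(some : Fin N → Option (Fin N)), Option.some_injective _⟩]
  refine (Finset.card_le_card (t := (S.filter (fun x => T d x ≠ none)).image (T d)) ?_).trans Finset.card_image_le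
  intro i hi
  obtain ⟨j, hj, rfl⟩ := Finset.mem_map.1 hi
  obtain ⟨x, hx, h⟩ := (Finset.mem_filter.1 hj).2
  rw [Finset.mem_image]
  refine ⟨x, Finset.mem_filter.2 ⟨hx, ?_⟩, h⟩
  rw [h]
  exact Option.some_ne_none _

section two

variable {T : D → X → Option (Fin N)} {S : Finset X} {n g : ℕ}

theorem sum_nd_up (hn : ∀ x ∈ S, (univ.filter (fun d => T d x ≠ none)).card = n) :
    ∑ d, nd T S d ≤ n * S.card := by
  calc ∑ d, nd T S d ≤ ∑ d, (S.filter (fun x => T d x ≠ none)).card := Finset.sum_le_sum fun d _ => nd_up T S d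
    _ = ∑ d, ∑ x ∈ S, (if T d x ≠ none then 1 else 0) := by
        refine Finset.sum_congr rfl fun d _ => ?_
        rw [Finset.card_filter]
    _ = ∑ x ∈ S, ∑ d, (if T d x ≠ none then 1 else 0) := Finset.sum_comm
    _ = ∑ x ∈ S, n := by
        refine Finset.sum_congr rfl fun x hx => ?_
        rw [← Finset.card_filter]
        exact hn x hx
    _ = n * S.card := by rw [Finset.sum_const, smul_eq_mul, mul_comm]

theorem sum_nd_ge (hn : ∀ x ∈ S, (univ.filter (fun d => T d x ≠ none)).card = n)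
    (hg : ∀ x ∈ S, ∀ x' ∈ S, x ≠ x' → (univ.filter (fun d => T d x = T d x' ∧ T d x ≠ none)).card ≤ g) :
    n * S.card ≤ ∑ d, nd T S d + g * S.card ^ 2 := by
  have h1 : n * S.card = ∑ d, (S.filter (fun x => T d x ≠ none)).card := by
    calc n * S.card = ∑ x ∈ S, n := by rw [Finset.sum_const, smul_eq_mul, mul_comm]
      _ = ∑ x ∈ S, ∑ d, (if T d x ≠ none then 1 else 0) := by
          refine Finset.sum_congr rfl fun x hx => ?_
          rw [← Finset.card_filter]
          exact (hn x hx).symm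
      _ = ∑ d, ∑ x ∈ S, (if T d x ≠ none then 1 else 0) := Finset.sum_comm
      _ = ∑ d, (S.filter (fun x => T d x ≠ none)).card := by
          refine Finset.sum_congr rfl fun d _ => ?_
          rw [Finset.card_filter]
  have h2 : ∑ d, ((S ×ˢ S).filter (fun y => y.1 ≠ y.2 ∧ T d y.1 = T d y.2 ∧ T d y.1 ≠ none)).card ≤
      g * S.card ^ 2 := by
    calc ∑ d, ((S ×ˢ S).filter (fun y => y.1 ≠ y.2 ∧ T d y.1 = T d y.2 ∧ T d y.1 ≠ none)).card
        = ∑ d, ∑ y ∈ S ×ˢ S, (if y.1 ≠ y.2 ∧ T d y.1 = T d y.2 ∧ T d y.1 ≠ none then 1 else 0) := by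
          refine Finset.sum_congr rfl fun d _ => ?_
          rw [Finset.card_filter]
      _ = ∑ y ∈ S ×ˢ S, ∑ d, (if y.1 ≠ y.2 ∧ T d y.1 = T d y.2 ∧ T d y.1 ≠ none then 1 else 0) :=
          Finset.sum_comm
      _ ≤ ∑ y ∈ S ×ˢ S, g := by
          refine Finset.sum_le_sum fun y hy => ?_
          rw [← Finset.card_filter]
          obtain ⟨h3, h4⟩ := Finset.mem_product.1 hy
          by_cases hne : y.1 = y.2
          · have h5 : (univ.filter (fun d => y.1 ≠ y.2 ∧ T d y.1 = T d y.2 ∧ T d y.1 ≠ none)) = ∅ := by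
              rw [Finset.filter_eq_empty_iff]
              intro d _ h6
              exact h6.1 hne
            rw [h5, Finset.card_empty]
            exact Nat.zero_le _
          · refine le_trans (Finset.card_le_card ?_) (hg y.1 h3 y.2 h4 hne)
            intro d hd
            obtain ⟨h5, h6, h7⟩ := Finset.mem_filter.1 hd
            exact Finset.mem_filter.2 ⟨h5, h7⟩
      _ = g * S.card ^ 2 := by
          rw [Finset.sum_const, Finset.card_product, smul_eq_mul]
          ring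
  rw [h1]
  calc ∑ d, (S.filter (fun x => T d x ≠ none)).card
      ≤ ∑ d, (nd T S d + ((S ×ˢ S).filter (fun y => y.1 ≠ y.2 ∧ T d y.1 = T d y.2 ∧ T d y.1 ≠ none)).card) :=
        Finset.sum_le_sum fun d _ => nd_ge T S d
    _ ≤ ∑ d, nd T S d + g * S.card ^ 2 := by
        rw [Finset.sum_add_distrib]
        exact Nat.add_le_add_left h2 _

end two

/-- the product of `1 - t` -/
private theorem prod_sub (s : Finset D) (t : D → ℝ) (h0 : ∀ d ∈ s, 0 ≤ t d) (h1 : ∀ d ∈ s, t d ≤ 1) :
    1 - ∑ d ∈ s, t d ≤ ∏ d ∈ s, (1 - t d) ∧ ∏ d ∈ s, (1 - t d) ≤ 1 ∧ 0 ≤ ∏ d ∈ s, (1 - t d) := by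
  induction s using Finset.induction_on with
  | empty => simp
  | insert a s ha ih =>
    obtain ⟨i1, i2, i3⟩ := ih (fun d hd => h0 d (Finset.mem_insert_of_mem hd))
      (fun d hd => h1 d (Finset.mem_insert_of_mem hd))
    have ha0 := h0 a (Finset.mem_insert_self a s)
    have ha1 := h1 a (Finset.mem_insert_self a s)
    rw [Finset.sum_insert ha, Finset.prod_insert ha]
    refine ⟨?_, ?_, ?_⟩
    · have h2 : (1 - t a) * (∏ d ∈ s, (1 - t d)) = (∏ d ∈ s, (1 - t d)) - t a * ∏ d ∈ s, (1 - t d) := by ring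
      rw [h2]
      have h3 : t a * ∏ d ∈ s, (1 - t d) ≤ t a * 1 := mul_le_mul_of_nonneg_left i2 ha0
      linarith
    · calc (1 - t a) * ∏ d ∈ s, (1 - t d) ≤ 1 * 1 := mul_le_mul (by linarith) i2 i3 (by norm_num)
        _ = 1 := one_mul 1
    · exact mul_nonneg (by linarith) i3

section main

variable {T : D → X → Option (Fin N)} {S : Finset X} {n g : ℕ}

private theorem card_real (hN : 0 < N) :
    ((missN T S).card : ℝ) = (N : ℝ) ^ Fintype.card D * ∏ d, (1 - (nd T S d : ℝ) / N) := by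
  have hNR : (0 : ℝ) < N := by exact_mod_cast hN
  rw [card_missN, Nat.cast_prod]
  have h1 : (N : ℝ) ^ Fintype.card D = ∏ _d : D, (N : ℝ) := by
    rw [Finset.prod_const, Finset.card_univ]
  rw [h1, ← Finset.prod_mul_distrib]
  refine Finset.prod_congr rfl fun d _ => ?_
  rw [Nat.cast_sub (nd_le T S d), mul_sub, mul_one, mul_div_cancel₀ _ hNR.ne']

/-- upper bound -/
theorem miss_up (hN : 2 ≤ N) (hn : ∀ x ∈ S, (univ.filter (fun d => T d x ≠ none)).card = n)
    (hg : ∀ x ∈ S, ∀ x' ∈ S, x ≠ x' → (univ.filter (fun d => T d x = T d x' ∧ T d x ≠ none)).card ≤ g) :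
    ((missN T S).card : ℝ) * (1 - g * (S.card : ℝ) ^ 2 / N) ≤
      ((1 - 1 / (N : ℝ)) ^ n) ^ S.card * (N : ℝ) ^ Fintype.card D := by
  have hNR : (2 : ℝ) ≤ N := by exact_mod_cast hN
  have hN0 : (0 : ℝ) < N := by linarith
  obtain ⟨u, hu⟩ : ∃ u : ℝ, u = 1 - 1 / (N : ℝ) := ⟨_, rfl⟩
  have hN1 : 1 / (N : ℝ) ≤ 1 / 2 := one_div_le_one_div_of_le (by norm_num) hNR
  have hN2 : 0 < 1 / (N : ℝ) := by positivity
  have hu0 : 0 < u := by rw [hu]; linarith
  have hu1 : u ≤ 1 := by rw [hu]; linarith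
  have h1 : ∏ d, (1 - (nd T S d : ℝ) / N) ≤ u ^ (∑ d, nd T S d) := by
    rw [← Finset.prod_pow_eq_pow_sum]
    refine Finset.prod_le_prod (fun d _ => ?_) fun d _ => ?_
    · rw [sub_nonneg, div_le_one hN0]
      exact_mod_cast nd_le T S d
    · have h2 := one_add_mul_le_pow (a := -(1 / (N : ℝ))) (by linarith) (nd T S d)
      have h3 : 1 + (nd T S d : ℝ) * -(1 / (N : ℝ)) = 1 - (nd T S d : ℝ) / N := by ring
      rw [h3] at h2
      have h4 : 1 + -(1 / (N : ℝ)) = u := by rw [hu]; ring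
      rwa [h4] at h2
  have h2 : 1 - g * (S.card : ℝ) ^ 2 / N ≤ u ^ (g * S.card ^ 2) := by
    have h2 := one_add_mul_le_pow (a := -(1 / (N : ℝ))) (by linarith) (g * S.card ^ 2)
    have h3 : 1 + ((g * S.card ^ 2 : ℕ) : ℝ) * -(1 / (N : ℝ)) = 1 - g * (S.card : ℝ) ^ 2 / N := by
      push_cast
      ring
    rw [h3] at h2
    have h4 : 1 + -(1 / (N : ℝ)) = u := by rw [hu]; ring
    rwa [h4] at h2
  have h3 : u ^ (∑ d, nd T S d) * u ^ (g * S.card ^ 2) ≤ (u ^ n) ^ S.card := by
    rw [← pow_add, ← pow_mul]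
    exact pow_le_pow_of_le_one hu0.le hu1 (sum_nd_ge hn hg)
  rw [card_real (by omega), ← hu]
  have hp : 0 < u ^ (∑ d, nd T S d) := pow_pos hu0 _
  have hND : 0 < (N : ℝ) ^ Fintype.card D := by positivity
  calc (N : ℝ) ^ Fintype.card D * (∏ d, (1 - (nd T S d : ℝ) / N)) * (1 - g * (S.card : ℝ) ^ 2 / N)
      ≤ (N : ℝ) ^ Fintype.card D * (∏ d, (1 - (nd T S d : ℝ) / N)) * u ^ (g * S.card ^ 2) := by
        refine mul_le_mul_of_nonneg_left h2 (mul_nonneg hND.le (Finset.prod_nonneg fun d _ => ?_))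
        rw [sub_nonneg, div_le_one hN0]
        exact_mod_cast nd_le T S d
    _ ≤ (N : ℝ) ^ Fintype.card D * u ^ (∑ d, nd T S d) * u ^ (g * S.card ^ 2) := by
        refine mul_le_mul_of_nonneg_right (mul_le_mul_of_nonneg_left h1 hND.le) (pow_pos hu0 _).le
    _ = (N : ℝ) ^ Fintype.card D * (u ^ (∑ d, nd T S d) * u ^ (g * S.card ^ 2)) := by ring
    _ ≤ (N : ℝ) ^ Fintype.card D * (u ^ n) ^ S.card := mul_le_mul_of_nonneg_left h3 hND.le
    _ = (u ^ n) ^ S.card * (N : ℝ) ^ Fintype.card D := mul_comm _ _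

/-- lower bound -/
theorem miss_low (hN : 2 ≤ N) (hn : ∀ x ∈ S, (univ.filter (fun d => T d x ≠ none)).card = n) :
    ((1 - 1 / (N : ℝ)) ^ n) ^ S.card * (1 - (Fintype.card D : ℝ) * (S.card : ℝ) ^ 2 / (N : ℝ) ^ 2) *
      (N : ℝ) ^ Fintype.card D ≤ ((missN T S).card : ℝ) := by
  have hNR : (2 : ℝ) ≤ N := by exact_mod_cast hN
  have hN0 : (0 : ℝ) < N := by linarith
  obtain ⟨u, hu⟩ : ∃ u : ℝ, u = 1 - 1 / (N : ℝ) := ⟨_, rfl⟩
  have hN1 : 1 / (N : ℝ) ≤ 1 / 2 := one_div_le_one_div_of_le (by norm_num) hNR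
  have hN2 : 0 < 1 / (N : ℝ) := by positivity
  have hu0 : 0 < u := by rw [hu]; linarith
  have hu1 : u ≤ 1 := by rw [hu]; linarith
  obtain ⟨t, ht⟩ : ∃ t : D → ℝ, t = fun d => (nd T S d : ℝ) / N := ⟨_, rfl⟩
  have ht0 : ∀ d, 0 ≤ t d := fun d => by rw [ht]; positivity
  have ht1 : ∀ d, t d ≤ 1 := fun d => by
    rw [ht]
    show (nd T S d : ℝ) / N ≤ 1
    rw [div_le_one hN0]
    exact_mod_cast nd_le T S d
  have htd : ∀ d, u ^ nd T S d * (1 - t d ^ 2) ≤ 1 - t d := by
    intro d
    have h1 : u ^ nd T S d ≤ Real.exp (-(t d)) := by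
      have h2 : u ≤ Real.exp (-(1 / (N : ℝ))) := by
        have := Real.add_one_le_exp (-(1 / (N : ℝ)))
        rw [hu]
        linarith
      calc u ^ nd T S d ≤ (Real.exp (-(1 / (N : ℝ)))) ^ nd T S d := pow_le_pow_left₀ hu0.le h2 _
        _ = Real.exp (-(t d)) := by
            rw [← Real.exp_nat_mul, ht]
            congr 1
            ring
    have h2 : Real.exp (-(t d)) * (1 + t d) ≤ 1 := by
      have h3 : 1 + t d ≤ Real.exp (t d) := by
        have := Real.add_one_le_exp (t d)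
        linarith
      calc Real.exp (-(t d)) * (1 + t d) ≤ Real.exp (-(t d)) * Real.exp (t d) :=
            mul_le_mul_of_nonneg_left h3 (Real.exp_pos _).le
        _ = 1 := by rw [← Real.exp_add, neg_add_cancel, Real.exp_zero]
    have h3 : 0 ≤ 1 - t d := by linarith [ht1 d]
    calc u ^ nd T S d * (1 - t d ^ 2) = (u ^ nd T S d * (1 + t d)) * (1 - t d) := by ring
      _ ≤ 1 * (1 - t d) := by
          refine mul_le_mul_of_nonneg_right ?_ h3
          refine le_trans (mul_le_mul_of_nonneg_right h1 ?_) h2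
          linarith [ht0 d]
      _ = 1 - t d := one_mul _
  have h1 : u ^ (∑ d, nd T S d) * (1 - ∑ d, t d ^ 2) ≤ ∏ d, (1 - t d) := by
    have h2 := (prod_sub (univ : Finset D) (fun d => t d ^ 2) (fun d _ => sq_nonneg _)
      (fun d _ => pow_le_one₀ (ht0 d) (ht1 d))).1
    calc u ^ (∑ d, nd T S d) * (1 - ∑ d, t d ^ 2) ≤ u ^ (∑ d, nd T S d) * ∏ d, (1 - t d ^ 2) :=
          mul_le_mul_of_nonneg_left h2 (pow_pos hu0 _).le
      _ = ∏ d, (u ^ nd T S d * (1 - t d ^ 2)) := by
          rw [Finset.prod_mul_distrib, Finset.prod_pow_eq_pow_sum]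
      _ ≤ ∏ d, (1 - t d) := by
          refine Finset.prod_le_prod (fun d _ => ?_) fun d _ => htd d
          refine mul_nonneg (pow_pos hu0 _).le ?_
          have := pow_le_one₀ (n := 2) (ht0 d) (ht1 d)
          linarith
  have h2 : ∑ d, t d ^ 2 ≤ (Fintype.card D : ℝ) * (S.card : ℝ) ^ 2 / (N : ℝ) ^ 2 := by
    have h3 : ∀ d ∈ (univ : Finset D), t d ^ 2 ≤ (S.card : ℝ) ^ 2 / (N : ℝ) ^ 2 := by
      intro d _
      rw [ht]
      show ((nd T S d : ℝ) / N) ^ 2 ≤ _
      rw [div_pow]
      refine div_le_div_of_nonneg_right ?_ (by positivity)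
      refine pow_le_pow_left₀ (Nat.cast_nonneg _) ?_ 2
      exact_mod_cast (nd_up T S d).trans (Finset.card_filter_le _ _)
    refine (Finset.sum_le_sum h3).trans (le_of_eq ?_)
    rw [Finset.sum_const, Finset.card_univ, nsmul_eq_mul]
    ring
  have h3 : (u ^ n) ^ S.card ≤ u ^ (∑ d, nd T S d) := by
    rw [← pow_mul]
    exact pow_le_pow_of_le_one hu0.le hu1 (sum_nd_up hn)
  rw [card_real (by omega), ← hu]
  have hND : 0 < (N : ℝ) ^ Fintype.card D := by positivity
  obtain ⟨w, hw⟩ : ∃ w : ℝ, w = 1 - (Fintype.card D : ℝ) * (S.card : ℝ) ^ 2 / (N : ℝ) ^ 2 := ⟨_, rfl⟩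
  have htt : ∏ d, (1 - (nd T S d : ℝ) / N) = ∏ d, (1 - t d) := by rw [ht]
  rw [← hw, htt]
  have hpr : 0 ≤ ∏ d, (1 - t d) := Finset.prod_nonneg fun d _ => by linarith [ht1 d]
  rcases le_or_gt w 0 with hw0 | hw0
  · have h4 : (u ^ n) ^ S.card * w * (N : ℝ) ^ Fintype.card D ≤ 0 := by
      refine mul_nonpos_of_nonpos_of_nonneg ?_ hND.le
      exact mul_nonpos_of_nonneg_of_nonpos (by positivity) hw0
    exact h4.trans (mul_nonneg hND.le hpr)
  · calc (u ^ n) ^ S.card * w * (N : ℝ) ^ Fintype.card D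
        ≤ u ^ (∑ d, nd T S d) * (1 - ∑ d, t d ^ 2) * (N : ℝ) ^ Fintype.card D := by
          refine mul_le_mul_of_nonneg_right ?_ hND.le
          exact mul_le_mul h3 (by rw [hw]; linarith) hw0.le (pow_pos hu0 _).le
      _ ≤ (∏ d, (1 - t d)) * (N : ℝ) ^ Fintype.card D := mul_le_mul_of_nonneg_right h1 hND.le
      _ = (N : ℝ) ^ Fintype.card D * ∏ d, (1 - t d) := mul_comm _ _

/-- one atom -/
theorem miss_single (hN : 0 < N) {x : X} (hn : (univ.filter (fun d => T d x ≠ none)).card = n) :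
    ((missN T {x}).card : ℝ) = (1 - 1 / (N : ℝ)) ^ n * (N : ℝ) ^ Fintype.card D := by
  rw [card_real hN, mul_comm]
  congr 1
  have h1 : ∀ d, (1 - (nd T {x} d : ℝ) / N) = if T d x ≠ none then 1 - 1 / (N : ℝ) else 1 := by
    intro d
    by_cases h : T d x ≠ none
    · obtain ⟨i, hi⟩ := Option.ne_none_iff_exists'.1 h
      have h2 : nd T {x} d = 1 := by
        unfold nd
        have h3 : (univ.filter (fun j : Fin N => ∃ y ∈ ({x} : Finset X), T d y = some j)) = {i} := by
          ext j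
          rw [Finset.mem_filter, Finset.mem_singleton]
          constructor
          · rintro ⟨_, y, hy, h4⟩
            rw [Finset.mem_singleton.1 hy, hi] at h4
            exact (Option.some_injective _ h4).symm
          · rintro rfl
            exact ⟨Finset.mem_univ _, x, Finset.mem_singleton_self x, hi⟩
        rw [h3, Finset.card_singleton]
      rw [if_pos h, h2, Nat.cast_one]
    · have h2 : nd T {x} d = 0 := by
        have h3 := nd_up T {x} d
        have h4 : (({x} : Finset X).filter (fun y => T d y ≠ none)).card = 0 := by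
          rw [Finset.card_eq_zero, Finset.filter_eq_empty_iff]
          intro y hy
          rw [Finset.mem_singleton.1 hy]
          exact h
        omega
      rw [if_neg h, h2, Nat.cast_zero, zero_div, sub_zero]
  rw [Finset.prod_congr rfl fun d _ => h1 d, Finset.prod_ite, Finset.prod_const_one, mul_one,
    Finset.prod_const, hn]

end main

end H19NB
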