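import Mathlib
import Pool.Agent.H19.NB.Prd

/-!
# [H19 NB DAT] Classes, active values, relevant parts; the coding of a round

`L d x`: the value at the part `d` which hits the atom `x`; `F d`: the free values. `cls d v`: the atoms hit by `v`.
`act U d`: the free values whose class is inside `U`; `rel U R x`: the parts of `R` whose value at `x` is active.
`exists_T`: one round: if every good atom has at least `n` relevant parts with at most `N` active values, there
are a coding `dec d : Fin N → Option V` of the active values and targets `T` with exactly `n` relevant parts.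
-/

set_option autoImplicit false
set_option linter.unusedSectionVars false

namespace H19NB

open Finset

variable {D X V : Type} [Fintype D] [DecidableEq D] [Fintype X] [DecidableEq X] [DecidableEq V]

/-- classes of size `K`, two atoms agree in at most `g` parts -/
structure Dat (D X V : Type) [Fintype D] [DecidableEq D] [Fintype X] [DecidableEq X] [DecidableEq V] where
  L : D → X → V
  F : D → Finset V
  K : ℕ
  g : ℕ
  hK1 : 1 ≤ K
  hg1 : 1 ≤ g
  hK : ∀ d x, (univ.filter (fun y => L d y = L d x)).card = K
  hV : ∀ d, ∀ v ∈ F d, ∃ x, L d x = v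
  hg : ∀ x x', x ≠ x' → (univ.filter (fun d => L d x = L d x')).card ≤ g

namespace Dat

variable (P : Dat D X V)

/-- the atoms hit by `v` -/
def cls (d : D) (v : V) : Finset X := univ.filter (fun x => P.L d x = v)

/-- the active values -/
def act (U : Finset X) (d : D) : Finset V := (P.F d).filter (fun v => P.cls d v ⊆ U)

/-- the relevant parts -/
def rel (U : Finset X) (R : Finset D) (x : X) : Finset D := R.filter (fun d => P.L d x ∈ P.act U d)

theorem mem_cls {d : D} {v : V} {x : X} : x ∈ P.cls d v ↔ P.L d x = v := by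
  unfold cls
  rw [Finset.mem_filter]
  exact ⟨fun h => h.2, fun h => ⟨Finset.mem_univ _, h⟩⟩

theorem self_cls (d : D) (x : X) : x ∈ P.cls d (P.L d x) := P.mem_cls.2 rfl

theorem mem_act {U : Finset X} {d : D} {v : V} : v ∈ P.act U d ↔ v ∈ P.F d ∧ P.cls d v ⊆ U := by
  unfold act
  rw [Finset.mem_filter]

theorem mem_rel {U : Finset X} {R : Finset D} {x : X} {d : D} :
    d ∈ P.rel U R x ↔ d ∈ R ∧ P.L d x ∈ P.act U d := by
  unfold rel
  rw [Finset.mem_filter]

theorem card_cls (d : D) {v : V} (hv : v ∈ P.F d) : (P.cls d v).card = P.K := by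
  obtain ⟨x, rfl⟩ := P.hV d v hv
  exact P.hK d x

theorem cls_disj (d : D) {v v' : V} (h : v ≠ v') : Disjoint (P.cls d v) (P.cls d v') := by
  rw [Finset.disjoint_left]
  intro x hx hx'
  rw [mem_cls] at hx hx'
  exact h (hx.symm.trans hx')

theorem act_mono {U U' : Finset X} (h : U' ⊆ U) (d : D) : P.act U' d ⊆ P.act U d := by
  intro v hv
  rw [mem_act] at hv ⊢
  exact ⟨hv.1, hv.2.trans h⟩

/-- coding of one round -/
theorem exists_T (U Good : Finset X) (N n : ℕ) (R : Finset D)
    (hd : ∀ x ∈ Good, n ≤ ((P.rel U R x).filter (fun d => (P.act U d).card ≤ N)).card) :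
    ∃ (T : D → X → Option (Fin N)) (dec : D → Fin N → Option V),
      (∀ d x i, T d x = some i → d ∈ R ∧ x ∈ Good ∧ dec d i = some (P.L d x)) ∧
      (∀ d i v, dec d i = some v → v ∈ P.F d) ∧
      ∀ x ∈ Good, (univ.filter (fun d => T d x ≠ none)).card = n := by
  classical
  have h1 : ∀ d, ∃ f : V → Option (Fin N), (∀ v i, f v = some i → v ∈ P.act U d) ∧
      (∀ v v' i, f v = some i → f v' = some i → v = v') ∧
      ((P.act U d).card ≤ N → ∀ v ∈ P.act U d, f v ≠ none) := by
    intro d
    by_cases h : (P.act U d).card ≤ N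
    · obtain ⟨f⟩ : Nonempty ({v // v ∈ P.act U d} ↪ Fin N) :=
        Function.Embedding.nonempty_of_card_le (by rwa [Fintype.card_coe, Fintype.card_fin])
      refine ⟨fun v => if hv : v ∈ P.act U d then some (f ⟨v, hv⟩) else none, ?_, ?_, ?_⟩
      · intro v i hi
        by_contra hv
        simp only [dif_neg hv] at hi
        exact absurd hi (Option.some_ne_none i).symm
      · intro v v' i hi hi'
        have hv : v ∈ P.act U d := by
          by_contra hv
          simp only [dif_neg hv] at hi
          exact absurd hi (Option.some_ne_none i).symm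
        have hv' : v' ∈ P.act U d := by
          by_contra hv'
          simp only [dif_neg hv'] at hi'
          exact absurd hi' (Option.some_ne_none i).symm
        simp only [dif_pos hv, Option.some.injEq] at hi
        simp only [dif_pos hv', Option.some.injEq] at hi'
        have h2 := f.injective (hi.trans hi'.symm)
        exact congrArg Subtype.val h2
      · intro _ v hv
        simp only [dif_pos hv]
        exact Option.some_ne_none _
    · exact ⟨fun _ => none, fun v i hi => absurd hi (Option.some_ne_none i).symm,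
        fun v v' i hi => absurd hi (Option.some_ne_none i).symm, fun h' => absurd h' h⟩
  choose f hf1 hf2 hf3 using h1
  have h2 : ∀ x, ∃ Q : Finset D, (x ∈ Good → Q ⊆ (P.rel U R x).filter (fun d => (P.act U d).card ≤ N) ∧
      Q.card = n) := by
    intro x
    by_cases hx : x ∈ Good
    · obtain ⟨Q, hQ, hQn⟩ := Finset.exists_subset_card_eq (hd x hx)
      exact ⟨Q, fun _ => ⟨hQ, hQn⟩⟩
    · exact ⟨∅, fun h => absurd h hx⟩
  choose Q hQ using h2
  refine ⟨fun d x => if x ∈ Good ∧ d ∈ Q x then f d (P.L d x) else none,
    fun d i => if h : ∃ v, f d v = some i then some h.choose else none, ?_, ?_, ?_⟩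
  · intro d x i hi
    by_cases h : x ∈ Good ∧ d ∈ Q x
    · simp only [if_pos h] at hi
      have h3 := (hQ x h.1).1 h.2
      obtain ⟨h4, h5⟩ := Finset.mem_filter.1 h3
      have h6 : ∃ v, f d v = some i := ⟨_, hi⟩
      refine ⟨(P.mem_rel.1 h4).1, h.1, ?_⟩
      simp only [dif_pos h6]
      rw [hf2 d _ _ i h6.choose_spec hi]
    · simp only [if_neg h] at hi
      exact absurd hi (Option.some_ne_none i).symm
  · intro d i v hv
    by_cases h : ∃ v, f d v = some i
    · simp only [dif_pos h, Option.some.injEq] at hv
      rw [← hv]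
      exact (P.mem_act.1 (hf1 d _ i h.choose_spec)).1
    · simp only [dif_neg h] at hv
      exact absurd hv (Option.some_ne_none v).symm
  · intro x hx
    have h3 : (univ.filter (fun d => (if x ∈ Good ∧ d ∈ Q x then f d (P.L d x) else none) ≠ none)) = Q x := by
      ext d
      rw [Finset.mem_filter]
      constructor
      · rintro ⟨_, h⟩
        by_contra hdQ
        exact h (if_neg fun h' => hdQ h'.2)
      · intro hdQ
        refine ⟨Finset.mem_univ _, ?_⟩
        rw [if_pos ⟨hx, hdQ⟩]
        obtain ⟨h4, h5⟩ := Finset.mem_filter.1 ((hQ x hx).1 hdQ)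
        exact hf3 d h5 _ (P.mem_rel.1 h4).2
    rw [h3]
    exact (hQ x hx).2

/-- two atoms agree in at most `g` parts -/
theorem T_agree {N : ℕ} {T : D → X → Option (Fin N)} {dec : D → Fin N → Option V}
    (h : ∀ d x i, T d x = some i → dec d i = some (P.L d x)) {x x' : X} (hx : x ≠ x') :
    (univ.filter (fun d => T d x = T d x' ∧ T d x ≠ none)).card ≤ P.g := by
  refine le_trans (Finset.card_le_card ?_) (P.hg x x' hx)
  intro d hd
  obtain ⟨_, h1, h2⟩ := Finset.mem_filter.1 hd
  obtain ⟨i, hi⟩ := Option.ne_none_iff_exists'.1 h2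
  have h3 := h d x i hi
  have h4 := h d x' i (h1.symm.trans hi)
  rw [h3] at h4
  exact Finset.mem_filter.2 ⟨Finset.mem_univ _, Option.some_injective _ h4⟩

/-- the number of the parts in which the class of `x` contains another atom of `B` -/
theorem card_bad_rel (B : Finset X) (x : X) (R : Finset D) :
    (R.filter (fun d => ∃ y ∈ B, y ≠ x ∧ P.L d y = P.L d x)).card ≤ P.g * B.card := by
  have h1 : R.filter (fun d => ∃ y ∈ B, y ≠ x ∧ P.L d y = P.L d x) ⊆
      (B.filter (fun y => y ≠ x)).biUnion (fun y => univ.filter (fun d => P.L d y = P.L d x)) := by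
    intro d hd
    obtain ⟨_, y, hy, hyx, h2⟩ := Finset.mem_filter.1 hd
    rw [Finset.mem_biUnion]
    exact ⟨y, Finset.mem_filter.2 ⟨hy, hyx⟩, Finset.mem_filter.2 ⟨Finset.mem_univ _, h2⟩⟩
  refine (Finset.card_le_card h1).trans (Finset.card_biUnion_le.trans ?_)
  calc ∑ y ∈ B.filter (fun y => y ≠ x), (univ.filter (fun d => P.L d y = P.L d x)).card
      ≤ ∑ y ∈ B.filter (fun y => y ≠ x), P.g :=
        Finset.sum_le_sum fun y hy => P.hg y x (Finset.mem_filter.1 hy).2
    _ = (B.filter (fun y => y ≠ x)).card * P.g := by rw [Finset.sum_const, smul_eq_mul]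
    _ ≤ B.card * P.g := Nat.mul_le_mul_right _ (Finset.card_filter_le _ _)
    _ = P.g * B.card := mul_comm _ _

end Dat

end H19NB
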