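import Mathlib
import Pool.Agent.H19.RPGadgetD

/-!
# [H19 NB GDF] The gadget with one family of parts
-/

set_option autoImplicit false

namespace H19NB

open Finset H19RP

/-- The conclusion of the gadget theorem with miss fraction `ε`, one family of parts. -/
def Gadget1 (G K p : ℕ) [NeZero p] (ε : ℝ) : Prop :=
  ∀ W : Dir p G → Finset (ZMod p), 32 * ∑ d, (W d).card ≤ G * p ^ 2 →
    ∃ e : Dir p G → Option (ZMod p), (∀ d v, e d = some v → v ∉ W d) ∧
      ((univ.filter (fun x : Atom p K => ∀ d, e d ≠ some (lin d x))).card : ℝ) ≤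
        (Fintype.card (Atom p K) : ℝ) * ε

end H19NB
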