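import Mathlib
import Pool.Agent.H19.NB.Dat
import Pool.Agent.H19.NB.Che

/-!
# [H19 NB TAL] The two tail estimates of a round
-/

set_option autoImplicit false
set_option linter.unusedSectionVars false

namespace H19NB

open Finset

namespace Dat

variable {D X V : Type} [Fintype D] [DecidableEq D] [Fintype X] [DecidableEq X] [DecidableEq V]
variable (P : Dat D X V)

/-- a round -/
structure Rnd (Good : Finset X) (N n : ℕ) (ζ q : ℝ) (T : D → X → Option (Fin N)) : Prop where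
  hN : 2 ≤ N
  hz0 : 8 * (P.g : ℝ) * (P.K : ℝ) ^ 2 / N + 4 * (Fintype.card D : ℝ) * (P.K : ℝ) ^ 2 / (N : ℝ) ^ 2 ≤ ζ
  hz1 : ζ ≤ 1
  hq : q = (1 - 1 / (N : ℝ)) ^ n
  hn : ∀ x ∈ Good, (univ.filter (fun d => T d x ≠ none)).card = n
  hg : ∀ x x', x ≠ x' → (univ.filter (fun d => T d x = T d x' ∧ T d x ≠ none)).card ≤ P.g

variable {P} {Good : Finset X} {N n : ℕ} {ζ q : ℝ} {T : D → X → Option (Fin N)}

namespace Rnd

theorem NR (h : P.Rnd Good N n ζ q T) : (2 : ℝ) ≤ N := by exact_mod_cast h.hN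

theorem w_pos (h : P.Rnd Good N n ζ q T) : 0 < (N : ℝ) ^ Fintype.card D := by
  have := h.NR
  positivity

theorem q_pos (h : P.Rnd Good N n ζ q T) : 0 < q := by
  have h1 := h.NR
  have h2 : 1 / (N : ℝ) ≤ 1 / 2 := one_div_le_one_div_of_le (by norm_num) h1
  rw [h.hq]
  exact pow_pos (by linarith) _

theorem q_le (h : P.Rnd Good N n ζ q T) : q ≤ 1 := by
  have h1 := h.NR
  have h2 : 1 / (N : ℝ) ≤ 1 / 2 := one_div_le_one_div_of_le (by norm_num) h1
  have h3 : 0 < 1 / (N : ℝ) := by positivity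
  rw [h.hq]
  exact pow_le_one₀ (by linarith) (by linarith)

theorem z_nonneg (h : P.Rnd Good N n ζ q T) : 0 ≤ ζ := by
  refine le_trans ?_ h.hz0
  positivity

theorem up (h : P.Rnd Good N n ζ q T) {S : Finset X} (hS : S ⊆ Good) (hc : S.card ≤ 2 * P.K) :
    ((missN T S).card : ℝ) ≤ q ^ S.card * (1 + ζ) * (N : ℝ) ^ Fintype.card D := by
  have hNR := h.NR
  have h1 := miss_up (S := S) (T := T) (n := n) (g := P.g) h.hN (fun x hx => h.hn x (hS hx))
    (fun x _ x' _ hne => h.hg x x' hne)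
  rw [← h.hq] at h1
  have hcR : (S.card : ℝ) ≤ 2 * P.K := by exact_mod_cast hc
  obtain ⟨t, ht⟩ : ∃ t : ℝ, t = P.g * (S.card : ℝ) ^ 2 / N := ⟨_, rfl⟩
  rw [← ht] at h1
  have ht0 : 0 ≤ t := by rw [ht]; positivity
  have ht1 : 2 * t ≤ ζ := by
    have h2 : (S.card : ℝ) ^ 2 ≤ (2 * P.K) ^ 2 := pow_le_pow_left₀ (Nat.cast_nonneg _) hcR 2
    have h3 : 2 * t ≤ 8 * (P.g : ℝ) * (P.K : ℝ) ^ 2 / N := by
      rw [ht, ← mul_div_assoc]
      refine div_le_div_of_nonneg_right ?_ (by linarith)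
      calc 2 * ((P.g : ℝ) * (S.card : ℝ) ^ 2) ≤ 2 * ((P.g : ℝ) * (2 * P.K) ^ 2) :=
            mul_le_mul_of_nonneg_left (mul_le_mul_of_nonneg_left h2 (Nat.cast_nonneg _)) (by norm_num)
        _ = 8 * (P.g : ℝ) * (P.K : ℝ) ^ 2 := by ring
    have h4 : 0 ≤ 4 * (Fintype.card D : ℝ) * (P.K : ℝ) ^ 2 / (N : ℝ) ^ 2 := by positivity
    have := h.hz0
    linarith
  have hz1 := h.hz1
  obtain ⟨m, hm⟩ : ∃ m : ℝ, m = ((missN T S).card : ℝ) := ⟨_, rfl⟩
  have hm0 : 0 ≤ m := by rw [hm]; positivity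
  have hw := h.w_pos
  have hqS : 0 < q ^ S.card := pow_pos h.q_pos _
  rw [← hm] at h1 ⊢
  have h2 : 1 ≤ (1 - t) * (1 + 2 * t) := by nlinarith
  calc m = m * 1 := (mul_one m).symm
    _ ≤ m * ((1 - t) * (1 + 2 * t)) := mul_le_mul_of_nonneg_left h2 hm0
    _ = (m * (1 - t)) * (1 + 2 * t) := by ring
    _ ≤ (q ^ S.card * (N : ℝ) ^ Fintype.card D) * (1 + 2 * t) := mul_le_mul_of_nonneg_right h1 (by linarith)
    _ ≤ (q ^ S.card * (N : ℝ) ^ Fintype.card D) * (1 + ζ) :=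
        mul_le_mul_of_nonneg_left (by linarith) (mul_nonneg hqS.le hw.le)
    _ = q ^ S.card * (1 + ζ) * (N : ℝ) ^ Fintype.card D := by ring

theorem low (h : P.Rnd Good N n ζ q T) {S : Finset X} (hS : S ⊆ Good) (hc : S.card ≤ 2 * P.K) :
    q ^ S.card * (1 - ζ) * (N : ℝ) ^ Fintype.card D ≤ ((missN T S).card : ℝ) := by
  have hNR := h.NR
  have h1 := miss_low (S := S) (T := T) (n := n) h.hN (fun x hx => h.hn x (hS hx))
  rw [← h.hq] at h1
  have hcR : (S.card : ℝ) ≤ 2 * P.K := by exact_mod_cast hc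
  have hw := h.w_pos
  have hqS : 0 < q ^ S.card := pow_pos h.q_pos _
  refine le_trans ?_ h1
  refine mul_le_mul_of_nonneg_right (mul_le_mul_of_nonneg_left ?_ hqS.le) hw.le
  have h2 : (S.card : ℝ) ^ 2 ≤ (2 * P.K) ^ 2 := pow_le_pow_left₀ (Nat.cast_nonneg _) hcR 2
  have h3 : (Fintype.card D : ℝ) * (S.card : ℝ) ^ 2 / (N : ℝ) ^ 2 ≤
      4 * (Fintype.card D : ℝ) * (P.K : ℝ) ^ 2 / (N : ℝ) ^ 2 := by
    refine div_le_div_of_nonneg_right ?_ (by positivity)
    calc (Fintype.card D : ℝ) * (S.card : ℝ) ^ 2 ≤ (Fintype.card D : ℝ) * (2 * P.K) ^ 2 :=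
          mul_le_mul_of_nonneg_left h2 (Nat.cast_nonneg _)
      _ = 4 * (Fintype.card D : ℝ) * (P.K : ℝ) ^ 2 := by ring
  have h4 : 0 ≤ 8 * (P.g : ℝ) * (P.K : ℝ) ^ 2 / N := by positivity
  have := h.hz0
  linarith

theorem single (h : P.Rnd Good N n ζ q T) {x : X} (hx : x ∈ Good) :
    ((missN T {x}).card : ℝ) = q * (N : ℝ) ^ Fintype.card D := by
  have hN := h.hN
  rw [h.hq]
  exact miss_single (by omega) (h.hn x hx)

/-- the number of the surviving classes of one part -/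
theorem tailA (h : P.Rnd Good N n ζ q T) (d : D) (V0 : Finset V) (hV : ∀ v ∈ V0, v ∈ P.F d ∧ P.cls d v ⊆ Good)
    (up Q η : ℝ) (hup : (V0.card : ℝ) ≤ up) (hη : 0 < η) (hQ : 0 < Q) (hQu : Q ≤ up * q ^ P.K) :
    ((univ.filter (fun e : D → Fin N => up * q ^ P.K * (1 + η) <
      (Zc V0 (fun v => missN T (P.cls d v)) e : ℝ))).card : ℝ) ≤
      (3 * ζ + 2 * P.g * P.K / Q) / η ^ 2 * (N : ℝ) ^ Fintype.card D := by
  obtain ⟨w, hw⟩ : ∃ w : ℝ, w = (N : ℝ) ^ Fintype.card D := ⟨_, rfl⟩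
  have hw0 : 0 < w := by rw [hw]; exact h.w_pos
  obtain ⟨α, hα⟩ : ∃ α : ℝ, α = q ^ P.K := ⟨_, rfl⟩
  have hα0 : 0 < α := by rw [hα]; exact pow_pos h.q_pos _
  have hz0 := h.z_nonneg
  have hz1 := h.hz1
  obtain ⟨m, hm⟩ : ∃ m : ℝ, m = (V0.card : ℝ) := ⟨_, rfl⟩
  have hm0 : 0 ≤ m := by rw [hm]; positivity
  have hK1 : 1 ≤ P.K := P.hK1
  have hup0 : 0 ≤ up := hm0.trans (hm ▸ hup)
  rw [← hα] at hQu ⊢
  rw [← hw]
  have hcard : ∀ v ∈ V0, (P.cls d v).card = P.K := fun v hv => P.card_cls d (hV v hv).1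
  have h1 : m * α * 1 * (1 - ζ) * w ≤ ∑ v ∈ V0, ((missN T (P.cls d v)).card : ℝ) := by
    have h2 : ∑ v ∈ V0, α * (1 - ζ) * w ≤ ∑ v ∈ V0, ((missN T (P.cls d v)).card : ℝ) := by
      refine Finset.sum_le_sum fun v hv => ?_
      have h3 := h.low (hV v hv).2 (by rw [hcard v hv]; omega)
      rw [hcard v hv, ← hα, ← hw] at h3
      exact h3
    rw [Finset.sum_const, nsmul_eq_mul, ← hm] at h2
    calc m * α * 1 * (1 - ζ) * w = m * (α * (1 - ζ) * w) := by ring
      _ ≤ _ := h2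
  have h2 : ∑ v ∈ V0, ∑ v' ∈ V0, ((missN T (P.cls d v) ∩ missN T (P.cls d v')).card : ℝ) ≤
      ((m * α) ^ 2 * 1 * (1 + ζ) + 2 * (m * α)) * w := by
    have h3 : ∀ v ∈ V0, ∑ v' ∈ V0, ((missN T (P.cls d v) ∩ missN T (P.cls d v')).card : ℝ) ≤
        (m * (α ^ 2 * (1 + ζ)) + 2 * α) * w := by
      intro v hv
      have h4 : ∀ v' ∈ V0, ((missN T (P.cls d v) ∩ missN T (P.cls d v')).card : ℝ) ≤
          α ^ 2 * (1 + ζ) * w + (if v = v' then 2 * α * w else 0) := by
        intro v' hv'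
        by_cases hvv : v = v'
        · rw [if_pos hvv, ← hvv, Finset.inter_self]
          have h5 := h.up (hV v hv).2 (by rw [hcard v hv]; omega)
          rw [hcard v hv, ← hα, ← hw] at h5
          have h6 : α * (1 + ζ) * w ≤ 2 * α * w := by
            refine mul_le_mul_of_nonneg_right ?_ hw0.le
            nlinarith
          have h7 : 0 ≤ α ^ 2 * (1 + ζ) * w := by positivity
          linarith
        · rw [if_neg hvv, ← missN_union, add_zero]
          have hdis := P.cls_disj d hvv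
          have hcu : (P.cls d v ∪ P.cls d v').card = 2 * P.K := by
            rw [Finset.card_union_of_disjoint hdis, hcard v hv, hcard v' hv']
            ring
          have h5 := h.up (S := P.cls d v ∪ P.cls d v') (Finset.union_subset (hV v hv).2 (hV v' hv').2)
            (le_of_eq hcu)
          rw [hcu, ← hw] at h5
          have h6 : q ^ (2 * P.K) = α ^ 2 := by
            rw [hα, ← pow_mul]
            congr 1
            ring
          rw [h6] at h5
          exact h5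
      refine (Finset.sum_le_sum h4).trans ?_
      rw [Finset.sum_add_distrib, Finset.sum_const, nsmul_eq_mul, ← hm, Finset.sum_ite_eq, if_pos hv]
      exact le_of_eq (by ring)
    refine (Finset.sum_le_sum h3).trans ?_
    rw [Finset.sum_const, nsmul_eq_mul, ← hm]
    exact le_of_eq (by ring)
  have h0 : (((univ : Finset (D → Fin N)).card : ℕ) : ℝ) ≤ 1 * w := by
    rw [Finset.card_univ, Fintype.card_fun, Fintype.card_fin, one_mul, hw]
    push_cast
    exact le_refl _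
  have h3 := tail_up (univ : Finset (D → Fin N)) V0 (fun v => missN T (P.cls d v))
    (fun v _ => Finset.subset_univ _) (m * α) 1 w ζ (2 * (m * α)) (η * (up * α)) (by positivity)
    (by positivity) h0 h1 h2
  have h4 : (univ.filter (fun e : D → Fin N => up * α * (1 + η) <
      (Zc V0 (fun v => missN T (P.cls d v)) e : ℝ))).card ≤
      (univ.filter (fun e : D → Fin N => m * α + η * (up * α) <
      (Zc V0 (fun v => missN T (P.cls d v)) e : ℝ))).card := by
    refine Finset.card_le_card fun e he => ?_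
    have h5 := (Finset.mem_filter.1 he).2
    refine Finset.mem_filter.2 ⟨Finset.mem_univ _, lt_of_le_of_lt ?_ h5⟩
    have h6 : m * α ≤ up * α := mul_le_mul_of_nonneg_right (hm ▸ hup) hα0.le
    calc m * α + η * (up * α) ≤ up * α + η * (up * α) := by linarith
      _ = up * α * (1 + η) := by ring
  have h5 : ((univ.filter (fun e : D → Fin N => up * α * (1 + η) <
      (Zc V0 (fun v => missN T (P.cls d v)) e : ℝ))).card : ℝ) * (η * (up * α)) ^ 2 ≤
      (3 * ζ * (m * α) ^ 2 * 1 + 2 * (m * α)) * w := by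
    refine le_trans (mul_le_mul_of_nonneg_right ?_ (sq_nonneg _)) h3
    exact_mod_cast h4
  obtain ⟨u, hu⟩ : ∃ u : ℝ, u = up * α := ⟨_, rfl⟩
  rw [← hu] at h5 hQu ⊢
  have hu0 : 0 < u := hQ.trans_le hQu
  have hmu : m * α ≤ u := by
    rw [hu]
    exact mul_le_mul_of_nonneg_right (hm ▸ hup) hα0.le
  have hma : 0 ≤ m * α := by positivity
  have h6 : (3 * ζ * (m * α) ^ 2 * 1 + 2 * (m * α)) * w ≤ (3 * ζ + 2 * P.g * P.K / Q) * u ^ 2 * w := by
    refine mul_le_mul_of_nonneg_right ?_ hw0.le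
    have h7 : (m * α) ^ 2 ≤ u ^ 2 := pow_le_pow_left₀ hma hmu 2
    have h8 : 3 * ζ * (m * α) ^ 2 * 1 ≤ 3 * ζ * u ^ 2 := by
      rw [mul_one]
      exact mul_le_mul_of_nonneg_left h7 (by positivity)
    have h9 : 2 * (m * α) ≤ 2 * P.g * P.K / Q * u ^ 2 := by
      have h10 : (1 : ℝ) ≤ (P.g : ℝ) * P.K := by
        have := P.hg1
        have h11 : 1 ≤ P.g * P.K := Nat.one_le_iff_ne_zero.2 (Nat.mul_ne_zero (by omega) (by omega))
        exact_mod_cast h11
      have h12 : 1 ≤ u / Q := by rwa [one_le_div hQ]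
      have h13 : u * (u / Q) = u ^ 2 / Q := by ring
      calc 2 * (m * α) ≤ 2 * u := by linarith
        _ = 2 * (1 * (u * 1)) := by ring
        _ ≤ 2 * ((P.g : ℝ) * P.K * (u * (u / Q))) := by
            refine mul_le_mul_of_nonneg_left ?_ (by norm_num)
            exact mul_le_mul h10 (mul_le_mul_of_nonneg_left h12 hu0.le) (by positivity) (by positivity)
        _ = 2 * P.g * P.K / Q * u ^ 2 := by rw [h13]; ring
    calc 3 * ζ * (m * α) ^ 2 * 1 + 2 * (m * α) ≤ 3 * ζ * u ^ 2 + 2 * P.g * P.K / Q * u ^ 2 := by linarith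
      _ = (3 * ζ + 2 * P.g * P.K / Q) * u ^ 2 := by ring
  have h7 := h5.trans h6
  have h8 : (η * u) ^ 2 = η ^ 2 * u ^ 2 := by ring
  rw [h8] at h7
  have h9 : ((univ.filter (fun e : D → Fin N => u * (1 + η) <
      (Zc V0 (fun v => missN T (P.cls d v)) e : ℝ))).card : ℝ) * η ^ 2 ≤
      (3 * ζ + 2 * P.g * P.K / Q) * w := by
    have hu2 : 0 < u ^ 2 := by positivity
    refine le_of_mul_le_mul_right ?_ hu2
    calc _ = ((univ.filter (fun e : D → Fin N => u * (1 + η) <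
      (Zc V0 (fun v => missN T (P.cls d v)) e : ℝ))).card : ℝ) * (η ^ 2 * u ^ 2) := by ring
      _ ≤ _ := h7
      _ = _ := by ring
  rw [div_mul_eq_mul_div, le_div_iff₀ (by positivity)]
  exact h9

/-- the number of the surviving relevant parts of one atom -/
theorem tailB (h : P.Rnd Good N n ζ q T) (x : X) (hx : x ∈ Good) (Γ : Finset D)
    (hΓ : ∀ d ∈ Γ, P.L d x ∈ P.F d ∧ P.cls d (P.L d x) ⊆ Good)
    (Q η M : ℝ) (hM : M * q = (Γ.card : ℝ) * q ^ P.K) (hη : 0 < η) (hQ : 0 < Q) (hQM : Q ≤ M) :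
    (((missN T {x}).filter (fun e : D → Fin N =>
      (Zc Γ (fun d => missN T (P.cls d (P.L d x))) e : ℝ) < M * (1 - η))).card : ℝ) ≤
      (3 * ζ + 2 * P.g * P.K / Q) / η ^ 2 * (N : ℝ) ^ Fintype.card D := by
  obtain ⟨w, hw⟩ : ∃ w : ℝ, w = (N : ℝ) ^ Fintype.card D := ⟨_, rfl⟩
  have hw0 : 0 < w := by rw [hw]; exact h.w_pos
  obtain ⟨α, hα⟩ : ∃ α : ℝ, α = q ^ P.K := ⟨_, rfl⟩
  have hα0 : 0 < α := by rw [hα]; exact pow_pos h.q_pos _
  have hq0 := h.q_pos
  have hq1 := h.q_le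
  have hz0 := h.z_nonneg
  have hz1 := h.hz1
  obtain ⟨m, hm⟩ : ∃ m : ℝ, m = (Γ.card : ℝ) := ⟨_, rfl⟩
  have hm0 : 0 ≤ m := by rw [hm]; positivity
  have hK1 : 1 ≤ P.K := P.hK1
  have hM0 : 0 < M := hQ.trans_le hQM
  rw [← hα, ← hm] at hM
  rw [← hw]
  have hcard : ∀ d ∈ Γ, (P.cls d (P.L d x)).card = P.K := fun d hd => P.card_cls d (hΓ d hd).1
  have hsub : ∀ d ∈ Γ, missN T (P.cls d (P.L d x)) ⊆ missN T {x} := by
    intro d _
    refine missN_mono ?_
    rw [Finset.singleton_subset_iff]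
    exact P.self_cls d x
  have h1 : M * q * (1 - ζ) * w ≤ ∑ d ∈ Γ, ((missN T (P.cls d (P.L d x))).card : ℝ) := by
    have h2 : ∑ d ∈ Γ, α * (1 - ζ) * w ≤ ∑ d ∈ Γ, ((missN T (P.cls d (P.L d x))).card : ℝ) := by
      refine Finset.sum_le_sum fun d hd => ?_
      have h3 := h.low (hΓ d hd).2 (by rw [hcard d hd]; omega)
      rw [hcard d hd, ← hα, ← hw] at h3
      exact h3
    rw [Finset.sum_const, nsmul_eq_mul, ← hm] at h2
    calc M * q * (1 - ζ) * w = m * (α * (1 - ζ) * w) := by rw [hM]; ring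
      _ ≤ _ := h2
  have h2 : ∑ d ∈ Γ, ∑ d' ∈ Γ, ((missN T (P.cls d (P.L d x)) ∩ missN T (P.cls d' (P.L d' x))).card : ℝ) ≤
      (M ^ 2 * q * (1 + ζ) + 2 * P.g * P.K * M * q) * w := by
    have h3 : ∀ d ∈ Γ, ∑ d' ∈ Γ,
        ((missN T (P.cls d (P.L d x)) ∩ missN T (P.cls d' (P.L d' x))).card : ℝ) ≤
        (m * (q ^ (2 * P.K - 1) * (1 + ζ)) + 2 * P.g * P.K * α) * w := by
      intro d hd
      have h4 : ∀ d' ∈ Γ, ((missN T (P.cls d (P.L d x)) ∩ missN T (P.cls d' (P.L d' x))).card : ℝ) ≤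
          q ^ (2 * P.K - 1) * (1 + ζ) * w +
            (if ∃ y ∈ P.cls d (P.L d x), y ≠ x ∧ P.L d' y = P.L d' x then 2 * α * w else 0) := by
        intro d' hd'
        by_cases hab : ∃ y ∈ P.cls d (P.L d x), y ≠ x ∧ P.L d' y = P.L d' x
        · rw [if_pos hab]
          have h5 := h.up (hΓ d hd).2 (by rw [hcard d hd]; omega)
          rw [hcard d hd, ← hα, ← hw] at h5
          have h6 : α * (1 + ζ) * w ≤ 2 * α * w := by
            refine mul_le_mul_of_nonneg_right ?_ hw0.le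
            nlinarith
          have h7 : 0 ≤ q ^ (2 * P.K - 1) * (1 + ζ) * w := by positivity
          have h8 : ((missN T (P.cls d (P.L d x)) ∩ missN T (P.cls d' (P.L d' x))).card : ℝ) ≤
              ((missN T (P.cls d (P.L d x))).card : ℝ) := by
            exact_mod_cast Finset.card_le_card Finset.inter_subset_left
          linarith
        · rw [if_neg hab, ← missN_union, add_zero]
          have hint : P.cls d (P.L d x) ∩ P.cls d' (P.L d' x) = {x} := by
            ext y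
            rw [Finset.mem_inter, Finset.mem_singleton]
            constructor
            · rintro ⟨h5, h6⟩
              by_contra hyx
              exact hab ⟨y, h5, hyx, P.mem_cls.1 h6⟩
            · rintro rfl
              exact ⟨P.self_cls d y, P.self_cls d' y⟩
          have hcu : (P.cls d (P.L d x) ∪ P.cls d' (P.L d' x)).card = 2 * P.K - 1 := by
            have h5 := Finset.card_union_add_card_inter (P.cls d (P.L d x)) (P.cls d' (P.L d' x))
            rw [hint, Finset.card_singleton, hcard d hd, hcard d' hd'] at h5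
            omega
          have h5 := h.up (S := P.cls d (P.L d x) ∪ P.cls d' (P.L d' x))
            (Finset.union_subset (hΓ d hd).2 (hΓ d' hd').2) (by rw [hcu]; omega)
          rw [hcu, ← hw] at h5
          exact h5
      refine (Finset.sum_le_sum h4).trans ?_
      rw [Finset.sum_add_distrib, Finset.sum_const, nsmul_eq_mul, ← hm]
      have h5 : ∑ d' ∈ Γ, (if ∃ y ∈ P.cls d (P.L d x), y ≠ x ∧ P.L d' y = P.L d' x then 2 * α * w else 0) ≤
          ((P.g * P.K : ℕ) : ℝ) * (2 * α * w) := by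
        rw [← Finset.sum_filter, Finset.sum_const, nsmul_eq_mul]
        refine mul_le_mul_of_nonneg_right ?_ (by positivity)
        have h6 := P.card_bad_rel (P.cls d (P.L d x)) x Γ
        rw [hcard d hd] at h6
        exact_mod_cast h6
      have h6 : (m * (q ^ (2 * P.K - 1) * (1 + ζ)) + 2 * P.g * P.K * α) * w =
          m * (q ^ (2 * P.K - 1) * (1 + ζ) * w) + ((P.g * P.K : ℕ) : ℝ) * (2 * α * w) := by
        push_cast
        ring
      rw [h6]
      linarith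
    refine (Finset.sum_le_sum h3).trans ?_
    rw [Finset.sum_const, nsmul_eq_mul, ← hm]
    have h4 : q ^ (2 * P.K - 1) * q = α ^ 2 := by
      rw [← pow_succ, hα, ← pow_mul]
      congr 1
      omega
    have h5 : M ^ 2 * q = m ^ 2 * q ^ (2 * P.K - 1) := by
      refine mul_right_cancel₀ hq0.ne' ?_
      calc M ^ 2 * q * q = (M * q) ^ 2 := by ring
        _ = (m * α) ^ 2 := by rw [hM]
        _ = m ^ 2 * (q ^ (2 * P.K - 1) * q) := by rw [h4]; ring
        _ = m ^ 2 * q ^ (2 * P.K - 1) * q := by ring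
    have h6 : 2 * P.g * P.K * M * q = 2 * P.g * P.K * (m * α) := by
      rw [← hM]
      ring
    rw [h5, h6]
    exact le_of_eq (by ring)
  have h0 : ((missN T {x}).card : ℝ) ≤ q * w := by
    rw [hw]
    exact le_of_eq (h.single hx)
  have h3 := tail_low (missN T {x}) Γ (fun d => missN T (P.cls d (P.L d x))) hsub M q w ζ
    (2 * P.g * P.K * M * q) (η * M) hM0.le (by positivity) h0 h1 h2
  have h4 : M - η * M = M * (1 - η) := by ring
  rw [h4] at h3
  obtain ⟨c, hc⟩ : ∃ c : ℝ, c = (((missN T {x}).filter (fun e : D → Fin N =>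
      (Zc Γ (fun d => missN T (P.cls d (P.L d x))) e : ℝ) < M * (1 - η))).card : ℝ) := ⟨_, rfl⟩
  rw [← hc] at h3 ⊢
  have h5 : (3 * ζ * M ^ 2 * q + 2 * P.g * P.K * M * q) * w ≤ (3 * ζ + 2 * P.g * P.K / Q) * M ^ 2 * w := by
    refine mul_le_mul_of_nonneg_right ?_ hw0.le
    have h6 : 3 * ζ * M ^ 2 * q ≤ 3 * ζ * M ^ 2 * 1 := mul_le_mul_of_nonneg_left hq1 (by positivity)
    have h7 : 2 * P.g * P.K * M * q ≤ 2 * P.g * P.K / Q * M ^ 2 := by
      have h8 : 1 ≤ M / Q := by rwa [one_le_div hQ]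
      calc 2 * (P.g : ℝ) * P.K * M * q ≤ 2 * P.g * P.K * M * 1 :=
            mul_le_mul_of_nonneg_left hq1 (by positivity)
        _ ≤ 2 * P.g * P.K * M * (M / Q) := mul_le_mul_of_nonneg_left h8 (by positivity)
        _ = 2 * P.g * P.K / Q * M ^ 2 := by ring
    calc 3 * ζ * M ^ 2 * q + 2 * P.g * P.K * M * q ≤ 3 * ζ * M ^ 2 + 2 * P.g * P.K / Q * M ^ 2 := by linarith
      _ = (3 * ζ + 2 * P.g * P.K / Q) * M ^ 2 := by ring
  have h6 := h3.trans h5
  have h7 : c * η ^ 2 ≤ (3 * ζ + 2 * P.g * P.K / Q) * w := by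
    have hM2 : 0 < M ^ 2 := by positivity
    refine le_of_mul_le_mul_right ?_ hM2
    calc c * η ^ 2 * M ^ 2 = c * (η * M) ^ 2 := by ring
      _ ≤ _ := h6
      _ = _ := by ring
  rw [div_mul_eq_mul_div, le_div_iff₀ (by positivity)]
  exact h7

end Rnd

end Dat

end H19NB
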