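import Mathlib
import Pool.Agent.H19.NB.Tal

/-!
# [H19 NB STP] One round and the last round
-/

set_option autoImplicit false
set_option linter.unusedSectionVars false

namespace H19NB

open Finset

namespace Dat

variable {D X V : Type} [Fintype D] [DecidableEq D] [Fintype X] [DecidableEq X] [DecidableEq V]
variable (P : Dat D X V)

open Classical in
/-- the good atoms -/
noncomputable def gd (U : Finset X) (I : Finset ℕ) (st : ℕ → Finset D) (lo : ℕ → ℝ) : Finset X :=
  U.filter (fun x => ∀ i ∈ I, lo i ≤ ((P.rel U (st i) x).card : ℝ))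

open Classical in
/-- the bad atoms -/
noncomputable def bd (U : Finset X) (I : Finset ℕ) (st : ℕ → Finset D) (lo : ℕ → ℝ) : Finset X :=
  U.filter (fun x => ∃ i ∈ I, ((P.rel U (st i) x).card : ℝ) < lo i)

open Classical in
/-- the parts with too many active values -/
noncomputable def bp (U : Finset X) (up : ℝ) : Finset D :=
  univ.filter (fun d => up < ((P.act U d).card : ℝ))

theorem mem_gd {U : Finset X} {I : Finset ℕ} {st : ℕ → Finset D} {lo : ℕ → ℝ} {x : X} :
    x ∈ P.gd U I st lo ↔ x ∈ U ∧ ∀ i ∈ I, lo i ≤ ((P.rel U (st i) x).card : ℝ) := by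
  unfold gd
  rw [Finset.mem_filter]

theorem mem_bd {U : Finset X} {I : Finset ℕ} {st : ℕ → Finset D} {lo : ℕ → ℝ} {x : X} :
    x ∈ P.bd U I st lo ↔ x ∈ U ∧ ∃ i ∈ I, ((P.rel U (st i) x).card : ℝ) < lo i := by
  unfold bd
  rw [Finset.mem_filter]

theorem mem_bp {U : Finset X} {up : ℝ} {d : D} : d ∈ P.bp U up ↔ up < ((P.act U d).card : ℝ) := by
  unfold bp
  rw [Finset.mem_filter]
  exact ⟨fun h => h.2, fun h => ⟨Finset.mem_univ _, h⟩⟩

theorem bd_of {U : Finset X} {I : Finset ℕ} {st : ℕ → Finset D} {lo : ℕ → ℝ} {x : X} (hx : x ∈ U)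
    (h : x ∉ P.gd U I st lo) : x ∈ P.bd U I st lo := by
  rw [mem_bd]
  refine ⟨hx, ?_⟩
  by_contra hcon
  push Not at hcon
  exact h (P.mem_gd.2 ⟨hx, hcon⟩)

/-- the uncovered atoms after the round with the choice `e` -/
def nxt {N : ℕ} (U Good : Finset X) (T : D → X → Option (Fin N)) (e : D → Fin N) : Finset X :=
  U.filter (fun x => x ∈ Good → e ∈ missN T {x})

theorem mem_nxt {N : ℕ} {U Good : Finset X} {T : D → X → Option (Fin N)} {e : D → Fin N} {x : X} :
    x ∈ nxt U Good T e ↔ x ∈ U ∧ (x ∈ Good → e ∈ missN T {x}) := by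
  unfold nxt
  rw [Finset.mem_filter]

theorem sub_nxt {N : ℕ} {U Good : Finset X} {T : D → X → Option (Fin N)} {e : D → Fin N} {C : Finset X}
    (hC : C ⊆ Good) (hGU : Good ⊆ U) : C ⊆ nxt U Good T e ↔ e ∈ missN T C := by
  constructor
  · intro h
    rw [mem_missN]
    intro x hx
    have h1 := (mem_nxt.1 (h hx)).2 (hC hx)
    rw [mem_missN] at h1
    exact h1 x (Finset.mem_singleton_self x)
  · intro h x hx
    rw [mem_nxt]
    refine ⟨hGU (hC hx), fun _ => ?_⟩
    rw [mem_missN] at h ⊢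
    intro y hy
    rw [Finset.mem_singleton.1 hy]
    exact h x hx

/-- the targets of a round -/
theorem exists_round (U : Finset X) (I : Finset ℕ) (st : ℕ → Finset D) (lo : ℕ → ℝ) (i₀ : ℕ) (hi₀ : i₀ ∈ I)
    (up b : ℝ) (N n : ℕ) (hNu : (N : ℝ) ≤ up) (hNu' : up < N + 1) (hA : ((P.bp U up).card : ℝ) ≤ b)
    (hn : n + b ≤ lo i₀) :
    ∃ (T : D → X → Option (Fin N)) (dec : D → Fin N → Option V),
      (∀ d x i, T d x = some i → d ∈ st i₀ ∧ x ∈ P.gd U I st lo ∧ dec d i = some (P.L d x)) ∧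
      (∀ d i v, dec d i = some v → v ∈ P.F d) ∧
      ∀ x ∈ P.gd U I st lo, (univ.filter (fun d => T d x ≠ none)).card = n := by
  classical
  refine P.exists_T U (P.gd U I st lo) N n (st i₀) fun x hx => ?_
  have h1 := (P.mem_gd.1 hx).2 i₀ hi₀
  have h2 : (P.rel U (st i₀) x).card ≤
      ((P.rel U (st i₀) x).filter (fun d => (P.act U d).card ≤ N)).card + (P.bp U up).card := by
    have h3 := Finset.card_filter_add_card_filter_not (s := P.rel U (st i₀) x)
      (fun d => (P.act U d).card ≤ N)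
    have h4 : ((P.rel U (st i₀) x).filter (fun d => ¬ (P.act U d).card ≤ N)).card ≤ (P.bp U up).card := by
      refine Finset.card_le_card fun d hd => ?_
      have h5 := (Finset.mem_filter.1 hd).2
      rw [mem_bp]
      have h6 : N + 1 ≤ (P.act U d).card := by omega
      have h7 : ((N : ℝ) + 1) ≤ ((P.act U d).card : ℝ) := by exact_mod_cast h6
      linarith
    omega
  have h3 : ((P.rel U (st i₀) x).card : ℝ) ≤
      (((P.rel U (st i₀) x).filter (fun d => (P.act U d).card ≤ N)).card : ℝ) + (P.bp U up).card := by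
    exact_mod_cast h2
  have h4 : (n : ℝ) ≤ (((P.rel U (st i₀) x).filter (fun d => (P.act U d).card ≤ N)).card : ℝ) := by
    linarith
  exact_mod_cast h4

/-- one round -/
theorem step (U : Finset X) (I I' : Finset ℕ) (hI : I' ⊆ I) (st : ℕ → Finset D) (lo lo' : ℕ → ℝ)
    (i₀ : ℕ) (hi₀ : i₀ ∈ I) (up up' b δ ζ η Q q : ℝ) (N n : ℕ) (hN : 2 ≤ N) (hNu : (N : ℝ) ≤ up)
    (hNu' : up < N + 1)
    (hz0 : 8 * (P.g : ℝ) * (P.K : ℝ) ^ 2 / N + 4 * (Fintype.card D : ℝ) * (P.K : ℝ) ^ 2 / (N : ℝ) ^ 2 ≤ ζ)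
    (hz1 : ζ ≤ 1) (hq : q = (1 - 1 / (N : ℝ)) ^ n) (hη : 0 < η) (hη1 : η ≤ 1) (hQ : 0 < Q)
    (hA : ((P.bp U up).card : ℝ) ≤ b) (hB : ((P.bd U I st lo).card : ℝ) ≤ b) (hn : n + b ≤ lo i₀)
    (hup' : up * q ^ P.K * (1 + η) + b ≤ up') (hQA : Q ≤ up * q ^ P.K)
    (hlo' : ∀ i ∈ I', lo' i * q ≤ (1 - η) * ((lo i - P.g * b) * q ^ P.K))
    (hQB : ∀ i ∈ I', Q * q ≤ (lo i - P.g * b) * q ^ P.K)
    (hδ : ((Fintype.card D : ℝ) + Fintype.card X * I'.card) *
      ((3 * ζ + 2 * P.g * P.K / Q) / η ^ 2) ≤ δ) :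
    ∃ (e : D → Option V) (U' : Finset X), U' ⊆ U ∧ (∀ d v, e d = some v → v ∈ P.F d ∧ d ∈ st i₀) ∧
      (∀ x ∈ U, x ∉ U' → ∃ d, e d = some (P.L d x)) ∧ ((P.bp U' up').card : ℝ) ≤ b + δ ∧
      ((P.bd U' I' st lo').card : ℝ) ≤ b + δ := by
  classical
  obtain ⟨T, dec, hT1, hdec, hTn⟩ := P.exists_round U I st lo i₀ hi₀ up b N n hNu hNu' hA hn
  obtain ⟨Good, hG⟩ : ∃ Good, Good = P.gd U I st lo := ⟨_, rfl⟩
  obtain ⟨Bad, hBd⟩ : ∃ Bad, Bad = P.bd U I st lo := ⟨_, rfl⟩
  rw [← hG] at hT1 hTn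
  rw [← hBd] at hB
  have hGU : Good ⊆ U := fun x hx => (P.mem_gd.1 (hG ▸ hx)).1
  have hGB : ∀ x ∈ U, x ∉ Good → x ∈ Bad := fun x hx h => hBd ▸ P.bd_of hx (hG ▸ h)
  have hR : P.Rnd Good N n ζ q T :=
    ⟨hN, hz0, hz1, hq, hTn, fun x x' hne => P.T_agree (fun d x i hi => (hT1 d x i hi).2.2) hne⟩
  have hq0 := hR.q_pos
  have hw0 := hR.w_pos
  obtain ⟨w, hw⟩ : ∃ w : ℝ, w = (N : ℝ) ^ Fintype.card D := ⟨_, rfl⟩
  rw [← hw] at hw0
  obtain ⟨τ, hτ⟩ : ∃ τ : ℝ, τ = (3 * ζ + 2 * P.g * P.K / Q) / η ^ 2 := ⟨_, rfl⟩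
  have hτ0 : 0 ≤ τ := by
    rw [hτ]
    have := hR.z_nonneg
    positivity
  rw [← hτ] at hδ
  -- (A)
  have hYb : ∀ (e : D → Fin N) (d : D), ((P.act (nxt U Good T e) d).card : ℝ) ≤
      (Zc ((P.act U d).filter (fun v => P.cls d v ⊆ Good)) (fun v => missN T (P.cls d v)) e : ℝ) + b := by
    intro e d
    have h1 : P.act (nxt U Good T e) d ⊆
        ((P.act U d).filter (fun v => P.cls d v ⊆ Good)).filter (fun v => e ∈ missN T (P.cls d v)) ∪
        (P.act U d).filter (fun v => ¬ P.cls d v ⊆ Good) := by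
      intro v hv
      have h2 : nxt U Good T e ⊆ U := fun x hx => (mem_nxt.1 hx).1
      have h3 := P.act_mono h2 d hv
      rw [Finset.mem_union]
      by_cases h4 : P.cls d v ⊆ Good
      · left
        rw [Finset.mem_filter, Finset.mem_filter]
        exact ⟨⟨h3, h4⟩, (sub_nxt h4 hGU).1 (P.mem_act.1 hv).2⟩
      · right
        exact Finset.mem_filter.2 ⟨h3, h4⟩
    have h2 : ((P.act U d).filter (fun v => ¬ P.cls d v ⊆ Good)).card ≤ Bad.card := by
      have h3 : ∀ v, ∃ y : Option X, v ∈ (P.act U d).filter (fun v => ¬ P.cls d v ⊆ Good) →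
          ∃ z, y = some z ∧ z ∈ Bad ∧ P.L d z = v := by
        intro v
        by_cases hv : v ∈ (P.act U d).filter (fun v => ¬ P.cls d v ⊆ Good)
        · obtain ⟨h4, h5⟩ := Finset.mem_filter.1 hv
          obtain ⟨z, hz, hzG⟩ := Finset.not_subset.1 h5
          exact ⟨some z, fun _ => ⟨z, rfl, hGB z ((P.mem_act.1 h4).2 hz) hzG, P.mem_cls.1 hz⟩⟩
        · exact ⟨none, fun h => absurd h hv⟩
      choose y hy using h3
      rw [← Finset.card_map ⟨(some : X → Option X), Option.some_injective _⟩]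
      refine Finset.card_le_card_of_injOn y ?_ ?_
      · intro v hv
        obtain ⟨z, h4, h5, _⟩ := hy v hv
        rw [h4]
        exact Finset.mem_coe.2 (Finset.mem_map.2 ⟨z, h5, rfl⟩)
      · intro v hv v' hv' hvv
        obtain ⟨z, h4, _, h6⟩ := hy v hv
        obtain ⟨z', h4', _, h6'⟩ := hy v' hv'
        have h7 : some z = some z' := by
          rw [← h4, ← h4']
          exact hvv
        rw [← h6, ← h6', Option.some_injective _ h7]
    have h3 := (Finset.card_le_card h1).trans (Finset.card_union_le _ _)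
    have h4 : ((P.act (nxt U Good T e) d).card : ℝ) ≤
        ((((P.act U d).filter (fun v => P.cls d v ⊆ Good)).filter
          (fun v => e ∈ missN T (P.cls d v))).card : ℝ) + (Bad.card : ℝ) := by
      exact_mod_cast h3.trans (Nat.add_le_add_left h2 _)
    unfold Zc
    linarith
  obtain ⟨f1, hf1⟩ : ∃ f1 : (D → Fin N) → Finset D, ∀ e, f1 e = univ.filter (fun d =>
      d ∉ P.bp U up ∧ d ∈ P.bp (nxt U Good T e) up') := ⟨_, fun _ => rfl⟩
  have hS1 : ∑ e, ((f1 e).card : ℝ) ≤ (Fintype.card D : ℝ) * (τ * w) := by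
    have h1 : ∑ e, (f1 e).card = ∑ d, (univ.filter (fun e : D → Fin N =>
        d ∉ P.bp U up ∧ d ∈ P.bp (nxt U Good T e) up')).card := by
      simp_rw [hf1, Finset.card_filter]
      exact Finset.sum_comm
    have h2 : ∀ d ∈ (univ : Finset D), ((univ.filter (fun e : D → Fin N =>
        d ∉ P.bp U up ∧ d ∈ P.bp (nxt U Good T e) up')).card : ℝ) ≤ τ * w := by
      intro d _
      by_cases hd : d ∈ P.bp U up
      · have h3 : (univ.filter (fun e : D → Fin N =>
            d ∉ P.bp U up ∧ d ∈ P.bp (nxt U Good T e) up')) = ∅ := by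
          rw [Finset.filter_eq_empty_iff]
          intro e _ h4
          exact h4.1 hd
        rw [h3, Finset.card_empty, Nat.cast_zero]
        positivity
      · have h3 : ((P.act U d).card : ℝ) ≤ up := by
          by_contra h4
          exact hd (P.mem_bp.2 (not_le.1 h4))
        have h4 := hR.tailA d ((P.act U d).filter (fun v => P.cls d v ⊆ Good))
          (fun v hv => ⟨(P.mem_act.1 (Finset.mem_filter.1 hv).1).1, (Finset.mem_filter.1 hv).2⟩) up Q η
          (le_trans (by exact_mod_cast Finset.card_filter_le _ _) h3) hη hQ hQA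
        rw [← hτ, ← hw] at h4
        refine le_trans ?_ h4
        have h5 : (univ.filter (fun e : D → Fin N =>
            d ∉ P.bp U up ∧ d ∈ P.bp (nxt U Good T e) up')) ⊆
            univ.filter (fun e : D → Fin N => up * q ^ P.K * (1 + η) <
              (Zc ((P.act U d).filter (fun v => P.cls d v ⊆ Good)) (fun v => missN T (P.cls d v)) e : ℝ)) := by
          intro e he
          have h6 := P.mem_bp.1 (Finset.mem_filter.1 he).2.2
          have h7 := hYb e d
          refine Finset.mem_filter.2 ⟨Finset.mem_univ _, ?_⟩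
          linarith
        exact_mod_cast Finset.card_le_card h5
    have h3 : ∑ e, ((f1 e).card : ℝ) = ∑ d, ((univ.filter (fun e : D → Fin N =>
        d ∉ P.bp U up ∧ d ∈ P.bp (nxt U Good T e) up')).card : ℝ) := by exact_mod_cast h1
    rw [h3]
    refine (Finset.sum_le_sum h2).trans (le_of_eq ?_)
    rw [Finset.sum_const, Finset.card_univ, nsmul_eq_mul]
  -- (B)
  obtain ⟨f2, hf2⟩ : ∃ f2 : (D → Fin N) → Finset X, ∀ e, f2 e = Good.filter (fun x =>
      e ∈ missN T {x} ∧ ∃ i ∈ I', ((P.rel (nxt U Good T e) (st i) x).card : ℝ) < lo' i) := ⟨_, fun _ => rfl⟩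
  have hS2 : ∑ e, ((f2 e).card : ℝ) ≤ (Fintype.card X : ℝ) * I'.card * (τ * w) := by
    have h1 : ∑ e, (f2 e).card = ∑ x ∈ Good, (univ.filter (fun e : D → Fin N =>
        e ∈ missN T {x} ∧ ∃ i ∈ I', ((P.rel (nxt U Good T e) (st i) x).card : ℝ) < lo' i)).card := by
      simp_rw [hf2, Finset.card_filter]
      exact Finset.sum_comm
    have h2 : ∀ x ∈ Good, ((univ.filter (fun e : D → Fin N =>
        e ∈ missN T {x} ∧ ∃ i ∈ I', ((P.rel (nxt U Good T e) (st i) x).card : ℝ) < lo' i)).card : ℝ) ≤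
        I'.card * (τ * w) := by
      intro x hx
      have h3 : ∀ i ∈ I', ((univ.filter (fun e : D → Fin N =>
          e ∈ missN T {x} ∧ ((P.rel (nxt U Good T e) (st i) x).card : ℝ) < lo' i)).card : ℝ) ≤ τ * w := by
        intro i hi
        obtain ⟨Γ0, hΓ0⟩ : ∃ Γ0, Γ0 = (P.rel U (st i) x).filter (fun d => P.cls d (P.L d x) ⊆ Good) :=
          ⟨_, rfl⟩
        have hc : lo i - P.g * b ≤ (Γ0.card : ℝ) := by
          have h4 := (P.mem_gd.1 (hG ▸ hx)).2 i (hI hi)
          have h5 := Finset.card_filter_add_card_filter_not (s := P.rel U (st i) x)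
            (fun d => P.cls d (P.L d x) ⊆ Good)
          rw [← hΓ0] at h5
          have h6 : ((P.rel U (st i) x).filter (fun d => ¬ P.cls d (P.L d x) ⊆ Good)).card ≤
              P.g * Bad.card := by
            refine le_trans (Finset.card_le_card ?_) (P.card_bad_rel Bad x (P.rel U (st i) x))
            intro d hd
            obtain ⟨h7, h8⟩ := Finset.mem_filter.1 hd
            obtain ⟨y, hy, hyG⟩ := Finset.not_subset.1 h8
            refine Finset.mem_filter.2 ⟨h7, y, hGB y ((P.mem_act.1 (P.mem_rel.1 h7).2).2 hy) hyG, ?_,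
              P.mem_cls.1 hy⟩
            rintro rfl
            exact hyG hx
          have h7 : ((P.rel U (st i) x).card : ℝ) ≤ (Γ0.card : ℝ) + P.g * Bad.card := by
            exact_mod_cast (by omega : (P.rel U (st i) x).card ≤ Γ0.card + P.g * Bad.card)
          have h8 : (P.g : ℝ) * Bad.card ≤ P.g * b := mul_le_mul_of_nonneg_left hB (Nat.cast_nonneg _)
          linarith
        obtain ⟨Γ, hΓs, hΓc⟩ := Finset.exists_subset_card_eq (Nat.ceil_le.2 hc)
        have hm : lo i - P.g * b ≤ (Γ.card : ℝ) := by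
          rw [hΓc]
          exact Nat.le_ceil _
        have hΓm : ∀ d ∈ Γ, d ∈ P.rel U (st i) x ∧ P.cls d (P.L d x) ⊆ Good := fun d hd =>
          Finset.mem_filter.1 (hΓ0 ▸ hΓs hd)
        obtain ⟨M, hM⟩ : ∃ M : ℝ, M = (Γ.card : ℝ) * q ^ P.K / q := ⟨_, rfl⟩
        have hMq : M * q = (Γ.card : ℝ) * q ^ P.K := by
          rw [hM]
          exact div_mul_cancel₀ _ hq0.ne'
        have hqK : 0 < q ^ P.K := pow_pos hq0 _
        have hmK : (lo i - P.g * b) * q ^ P.K ≤ (Γ.card : ℝ) * q ^ P.K :=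
          mul_le_mul_of_nonneg_right hm hqK.le
        have hQM : Q ≤ M := by
          refine le_of_mul_le_mul_right ?_ hq0
          rw [hMq]
          exact (hQB i hi).trans hmK
        have h4 := hR.tailB x hx Γ (fun d hd => ⟨(P.mem_act.1 (P.mem_rel.1 (hΓm d hd).1).2).1,
          (hΓm d hd).2⟩) Q η M hMq hη hQ hQM
        rw [← hτ, ← hw] at h4
        refine le_trans ?_ h4
        have h5 : (univ.filter (fun e : D → Fin N =>
            e ∈ missN T {x} ∧ ((P.rel (nxt U Good T e) (st i) x).card : ℝ) < lo' i)) ⊆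
            (missN T {x}).filter (fun e : D → Fin N =>
              (Zc Γ (fun d => missN T (P.cls d (P.L d x))) e : ℝ) < M * (1 - η)) := by
          intro e he
          obtain ⟨_, h6, h7⟩ := Finset.mem_filter.1 he
          refine Finset.mem_filter.2 ⟨h6, ?_⟩
          have h8 : (Zc Γ (fun d => missN T (P.cls d (P.L d x))) e : ℝ) ≤
              ((P.rel (nxt U Good T e) (st i) x).card : ℝ) := by
            have h9 : Γ.filter (fun d => e ∈ missN T (P.cls d (P.L d x))) ⊆
                P.rel (nxt U Good T e) (st i) x := by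
              intro d hd
              obtain ⟨h10, h11⟩ := Finset.mem_filter.1 hd
              obtain ⟨h12, h13⟩ := hΓm d h10
              rw [mem_rel] at h12 ⊢
              refine ⟨h12.1, ?_⟩
              rw [mem_act] at h12 ⊢
              exact ⟨h12.2.1, (sub_nxt h13 hGU).2 h11⟩
            unfold Zc
            exact_mod_cast Finset.card_le_card h9
          have h9 : lo' i ≤ M * (1 - η) := by
            refine le_of_mul_le_mul_right ?_ hq0
            calc lo' i * q ≤ (1 - η) * ((lo i - P.g * b) * q ^ P.K) := hlo' i hi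
              _ ≤ (1 - η) * ((Γ.card : ℝ) * q ^ P.K) := mul_le_mul_of_nonneg_left hmK (by linarith)
              _ = M * (1 - η) * q := by rw [← hMq]; ring
          linarith
        exact_mod_cast Finset.card_le_card h5
      have h4 : (univ.filter (fun e : D → Fin N =>
          e ∈ missN T {x} ∧ ∃ i ∈ I', ((P.rel (nxt U Good T e) (st i) x).card : ℝ) < lo' i)) ⊆
          I'.biUnion (fun i => univ.filter (fun e : D → Fin N =>
            e ∈ missN T {x} ∧ ((P.rel (nxt U Good T e) (st i) x).card : ℝ) < lo' i)) := by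
        intro e he
        obtain ⟨_, h5, i, hi, h6⟩ := Finset.mem_filter.1 he
        rw [Finset.mem_biUnion]
        exact ⟨i, hi, Finset.mem_filter.2 ⟨Finset.mem_univ _, h5, h6⟩⟩
      have h5 : ((univ.filter (fun e : D → Fin N =>
          e ∈ missN T {x} ∧ ∃ i ∈ I', ((P.rel (nxt U Good T e) (st i) x).card : ℝ) < lo' i)).card : ℝ) ≤
          ∑ i ∈ I', ((univ.filter (fun e : D → Fin N =>
            e ∈ missN T {x} ∧ ((P.rel (nxt U Good T e) (st i) x).card : ℝ) < lo' i)).card : ℝ) := by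
        exact_mod_cast (Finset.card_le_card h4).trans Finset.card_biUnion_le
      refine h5.trans ((Finset.sum_le_sum h3).trans (le_of_eq ?_))
      rw [Finset.sum_const, nsmul_eq_mul]
    have h3 : ∑ e, ((f2 e).card : ℝ) = ∑ x ∈ Good, ((univ.filter (fun e : D → Fin N =>
        e ∈ missN T {x} ∧ ∃ i ∈ I', ((P.rel (nxt U Good T e) (st i) x).card : ℝ) < lo' i)).card : ℝ) := by
      exact_mod_cast h1
    rw [h3]
    refine (Finset.sum_le_sum h2).trans ?_
    rw [Finset.sum_const, nsmul_eq_mul]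
    have h4 : (Good.card : ℝ) ≤ Fintype.card X := by exact_mod_cast Finset.card_le_univ _
    have h5 : 0 ≤ (I'.card : ℝ) * (τ * w) := by positivity
    calc (Good.card : ℝ) * ((I'.card : ℝ) * (τ * w)) ≤ Fintype.card X * ((I'.card : ℝ) * (τ * w)) :=
          mul_le_mul_of_nonneg_right h4 h5
      _ = _ := by ring
  -- a good choice
  have hcardU : ((univ : Finset (D → Fin N)).card : ℝ) = w := by
    rw [Finset.card_univ, Fintype.card_fun, Fintype.card_fin, hw]
    push_cast
    rfl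
  obtain ⟨e, -, he⟩ : ∃ e ∈ (univ : Finset (D → Fin N)), ((f1 e).card : ℝ) + (f2 e).card ≤ δ := by
    refine Finset.exists_le_of_sum_le (f := fun e => ((f1 e).card : ℝ) + (f2 e).card) (g := fun _ => δ) ?_ ?_
    · rw [← Finset.card_pos]
      have h1 : (0 : ℝ) < ((univ : Finset (D → Fin N)).card : ℝ) := by rw [hcardU]; exact hw0
      exact_mod_cast h1
    · rw [Finset.sum_add_distrib, Finset.sum_const, nsmul_eq_mul, hcardU]
      calc ∑ e, ((f1 e).card : ℝ) + ∑ e, ((f2 e).card : ℝ)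
          ≤ (Fintype.card D : ℝ) * (τ * w) + (Fintype.card X : ℝ) * I'.card * (τ * w) := add_le_add hS1 hS2
        _ = w * (((Fintype.card D : ℝ) + Fintype.card X * I'.card) * τ) := by ring
        _ ≤ w * δ := mul_le_mul_of_nonneg_left hδ hw0.le
  have hf1c : ((f1 e).card : ℝ) ≤ δ := by
    have : (0 : ℝ) ≤ (f2 e).card := Nat.cast_nonneg _
    linarith
  have hf2c : ((f2 e).card : ℝ) ≤ δ := by
    have : (0 : ℝ) ≤ (f1 e).card := Nat.cast_nonneg _
    linarith
  refine ⟨fun d => if d ∈ st i₀ then dec d (e d) else none, nxt U Good T e, fun x hx => (mem_nxt.1 hx).1,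
    ?_, ?_, ?_, ?_⟩
  · intro d v hv
    by_cases hd : d ∈ st i₀
    · simp only [if_pos hd] at hv
      exact ⟨hdec d _ v hv, hd⟩
    · simp only [if_neg hd] at hv
      exact absurd hv (Option.some_ne_none v).symm
  · intro x hx hx'
    have h1 : x ∈ Good ∧ e ∉ missN T {x} := by
      by_contra hcon
      apply hx'
      rw [mem_nxt]
      refine ⟨hx, fun h => ?_⟩
      by_contra h2
      exact hcon ⟨h, h2⟩
    have h2 : ∃ d, T d x = some (e d) := by
      by_contra hcon
      apply h1.2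
      rw [mem_missN]
      intro y hy d h3
      rw [Finset.mem_singleton.1 hy] at h3
      exact hcon ⟨d, h3⟩
    obtain ⟨d, h3⟩ := h2
    obtain ⟨h4, _, h5⟩ := hT1 d x _ h3
    refine ⟨d, ?_⟩
    simp only [if_pos h4]
    exact h5
  · have h1 : P.bp (nxt U Good T e) up' ⊆ P.bp U up ∪ f1 e := by
      intro d hd
      rw [Finset.mem_union]
      by_cases h2 : d ∈ P.bp U up
      · exact Or.inl h2
      · right
        rw [hf1]
        exact Finset.mem_filter.2 ⟨Finset.mem_univ _, h2, hd⟩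
    have h2 := (Finset.card_le_card h1).trans (Finset.card_union_le _ _)
    have h3 : ((P.bp (nxt U Good T e) up').card : ℝ) ≤ (P.bp U up).card + (f1 e).card := by
      exact_mod_cast h2
    linarith
  · have h1 : P.bd (nxt U Good T e) I' st lo' ⊆ Bad ∪ f2 e := by
      intro x hx
      obtain ⟨h2, h3⟩ := P.mem_bd.1 hx
      obtain ⟨h4, h5⟩ := mem_nxt.1 h2
      rw [Finset.mem_union]
      by_cases h6 : x ∈ Good
      · right
        rw [hf2]
        exact Finset.mem_filter.2 ⟨h6, h5 h6, h3⟩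
      · exact Or.inl (hGB x h4 h6)
    have h2 := (Finset.card_le_card h1).trans (Finset.card_union_le _ _)
    have h3 : ((P.bd (nxt U Good T e) I' st lo').card : ℝ) ≤ Bad.card + (f2 e).card := by
      exact_mod_cast h2
    linarith

/-- the last round -/
theorem last (U : Finset X) (I : Finset ℕ) (st : ℕ → Finset D) (lo : ℕ → ℝ) (i₀ : ℕ) (hi₀ : i₀ ∈ I)
    (up b q : ℝ) (N n : ℕ) (hN : 2 ≤ N) (hNu : (N : ℝ) ≤ up) (hNu' : up < N + 1)
    (hq : q = (1 - 1 / (N : ℝ)) ^ n) (hA : ((P.bp U up).card : ℝ) ≤ b)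
    (hB : ((P.bd U I st lo).card : ℝ) ≤ b) (hn : n + b ≤ lo i₀) :
    ∃ (e : D → Option V) (U' : Finset X), U' ⊆ U ∧ (∀ d v, e d = some v → v ∈ P.F d ∧ d ∈ st i₀) ∧
      (∀ x ∈ U, x ∉ U' → ∃ d, e d = some (P.L d x)) ∧ (U'.card : ℝ) ≤ q * Fintype.card X + b := by
  classical
  obtain ⟨T, dec, hT1, hdec, hTn⟩ := P.exists_round U I st lo i₀ hi₀ up b N n hNu hNu' hA hn
  obtain ⟨Good, hG⟩ : ∃ Good, Good = P.gd U I st lo := ⟨_, rfl⟩
  obtain ⟨Bad, hBd⟩ : ∃ Bad, Bad = P.bd U I st lo := ⟨_, rfl⟩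
  rw [← hG] at hT1 hTn
  rw [← hBd] at hB
  have hGU : Good ⊆ U := fun x hx => (P.mem_gd.1 (hG ▸ hx)).1
  have hGB : ∀ x ∈ U, x ∉ Good → x ∈ Bad := fun x hx h => hBd ▸ P.bd_of hx (hG ▸ h)
  have hNR : (2 : ℝ) ≤ N := by exact_mod_cast hN
  have hq0 : 0 ≤ q := by
    have h2 : 1 / (N : ℝ) ≤ 1 / 2 := one_div_le_one_div_of_le (by norm_num) hNR
    rw [hq]
    exact pow_nonneg (by linarith) _
  obtain ⟨w, hw⟩ : ∃ w : ℝ, w = (N : ℝ) ^ Fintype.card D := ⟨_, rfl⟩
  have hw0 : 0 < w := by rw [hw]; positivity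
  have hcardU : ((univ : Finset (D → Fin N)).card : ℝ) = w := by
    rw [Finset.card_univ, Fintype.card_fun, Fintype.card_fin, hw]
    push_cast
    rfl
  obtain ⟨f, hf⟩ : ∃ f : (D → Fin N) → Finset X, ∀ e, f e = Good.filter (fun x => e ∈ missN T {x}) :=
    ⟨_, fun _ => rfl⟩
  have hS : ∑ e, ((f e).card : ℝ) ≤ (Fintype.card X : ℝ) * (q * w) := by
    have h1 : ∑ e, (f e).card = ∑ x ∈ Good, (univ.filter (fun e : D → Fin N => e ∈ missN T {x})).card := by
      simp_rw [hf, Finset.card_filter]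
      exact Finset.sum_comm
    have h2 : ∀ x ∈ Good, ((univ.filter (fun e : D → Fin N => e ∈ missN T {x})).card : ℝ) ≤ q * w := by
      intro x hx
      have h3 : (univ.filter (fun e : D → Fin N => e ∈ missN T {x})) = missN T {x} := by
        ext e
        rw [Finset.mem_filter]
        exact ⟨fun h => h.2, fun h => ⟨Finset.mem_univ _, h⟩⟩
      rw [h3, miss_single (by omega) (hTn x hx), hq, hw]
    have h3 : ∑ e, ((f e).card : ℝ) = ∑ x ∈ Good,
        ((univ.filter (fun e : D → Fin N => e ∈ missN T {x})).card : ℝ) := by exact_mod_cast h1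
    rw [h3]
    refine (Finset.sum_le_sum h2).trans ?_
    rw [Finset.sum_const, nsmul_eq_mul]
    refine mul_le_mul_of_nonneg_right ?_ (mul_nonneg hq0 hw0.le)
    exact_mod_cast Finset.card_le_univ _
  obtain ⟨e, -, he⟩ : ∃ e ∈ (univ : Finset (D → Fin N)), ((f e).card : ℝ) ≤ q * Fintype.card X := by
    refine Finset.exists_le_of_sum_le (f := fun e => ((f e).card : ℝ))
      (g := fun _ => q * (Fintype.card X : ℝ)) ?_ ?_
    · rw [← Finset.card_pos]
      have h1 : (0 : ℝ) < ((univ : Finset (D → Fin N)).card : ℝ) := by rw [hcardU]; exact hw0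
      exact_mod_cast h1
    · rw [Finset.sum_const, nsmul_eq_mul, hcardU]
      exact hS.trans (le_of_eq (by ring))
  refine ⟨fun d => if d ∈ st i₀ then dec d (e d) else none, nxt U Good T e, fun x hx => (mem_nxt.1 hx).1,
    ?_, ?_, ?_⟩
  · intro d v hv
    by_cases hd : d ∈ st i₀
    · simp only [if_pos hd] at hv
      exact ⟨hdec d _ v hv, hd⟩
    · simp only [if_neg hd] at hv
      exact absurd hv (Option.some_ne_none v).symm
  · intro x hx hx'
    have h1 : x ∈ Good ∧ e ∉ missN T {x} := by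
      by_contra hcon
      apply hx'
      rw [mem_nxt]
      refine ⟨hx, fun h => ?_⟩
      by_contra h2
      exact hcon ⟨h, h2⟩
    have h2 : ∃ d, T d x = some (e d) := by
      by_contra hcon
      apply h1.2
      rw [mem_missN]
      intro y hy d h3
      rw [Finset.mem_singleton.1 hy] at h3
      exact hcon ⟨d, h3⟩
    obtain ⟨d, h3⟩ := h2
    obtain ⟨h4, _, h5⟩ := hT1 d x _ h3
    refine ⟨d, ?_⟩
    simp only [if_pos h4]
    exact h5
  · have h1 : nxt U Good T e ⊆ Bad ∪ f e := by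
      intro x hx
      obtain ⟨h4, h5⟩ := mem_nxt.1 hx
      rw [Finset.mem_union]
      by_cases h6 : x ∈ Good
      · right
        rw [hf]
        exact Finset.mem_filter.2 ⟨h6, h5 h6⟩
      · exact Or.inl (hGB x h4 h6)
    have h2 := (Finset.card_le_card h1).trans (Finset.card_union_le _ _)
    have h3 : ((nxt U Good T e).card : ℝ) ≤ Bad.card + (f e).card := by exact_mod_cast h2
    linarith

end Dat

end H19NB
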