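import Mathlib
import Pool.Agent.H19.NB.Stp

/-!
# [H19 NB IND] The rounds
-/

set_option autoImplicit false
set_option linter.unusedSectionVars false

namespace H19NB

open Finset

/-- the guaranteed share of the round number `i` -/
noncomputable def lam (J i : ℕ) : ℝ := if i = J then 16 else 8 / 2 ^ i

theorem lam_ge (J i : ℕ) (h : i ≤ J) : 8 / 2 ^ J ≤ lam J i := by
  unfold lam
  split_ifs with h1
  · have h2 : (1 : ℝ) ≤ 2 ^ J := one_le_pow₀ (by norm_num)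
    rw [div_le_iff₀ (by positivity)]
    linarith
  · exact div_le_div_of_nonneg_left (by norm_num) (by positivity) (pow_le_pow_right₀ (by norm_num) h)

namespace Dat

variable {D X V : Type} [Fintype D] [DecidableEq D] [Fintype X] [DecidableEq X] [DecidableEq V]
variable (P : Dat D X V)

/-- the state after `j` rounds -/
def Sta (p η δ : ℝ) (J : ℕ) (st : ℕ → Finset D) (Xo : Finset X) (j : ℕ) (Pr : ℝ) (U : Finset X)
    (e : D → Option V) : Prop :=
  0 < Pr ∧ Pr ≤ Real.exp (-(j : ℝ)) ∧ Real.exp (-(2 * (j : ℝ))) ≤ Pr ∧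
  (∀ d v, e d = some v → v ∈ P.F d ∧ ∀ i, j ≤ i → d ∉ st i) ∧
  (∀ x ∈ Xo, x ∉ U → ∃ d, e d = some (P.L d x)) ∧
  ((P.bp U ((1 + 3 * η) ^ j * p * Pr ^ P.K)).card : ℝ) ≤ j * δ ∧
  ((P.bd U (Finset.Icc j J) st (fun i => lam J i * p * Pr ^ P.K / (Pr * (1 + 3 * η) ^ j))).card : ℝ) ≤ j * δ

theorem sta_zero (p η δ : ℝ) (J : ℕ) (st : ℕ → Finset D) (Xo : Finset X)
    (hF : ∀ d, ((P.F d).card : ℝ) ≤ p)
    (hdeg : ∀ x ∈ Xo, ∀ i ≤ J, lam J i * p ≤ ((P.rel Xo (st i) x).card : ℝ)) :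
    P.Sta p η δ J st Xo 0 1 Xo (fun _ => none) := by
  refine ⟨one_pos, by simp, by simp, fun d v h => absurd h (Option.some_ne_none v).symm,
    fun x hx h => absurd hx h, ?_, ?_⟩
  · have h1 : P.bp Xo ((1 + 3 * η) ^ 0 * p * 1 ^ P.K) = ∅ := by
      rw [Finset.eq_empty_iff_forall_notMem]
      intro d hd
      have h2 := P.mem_bp.1 hd
      rw [pow_zero, one_mul, one_pow, mul_one] at h2
      have h3 : ((P.act Xo d).card : ℝ) ≤ (P.F d).card := by
        exact_mod_cast Finset.card_filter_le _ _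
      have := hF d
      linarith
    rw [h1]
    simp
  · have h1 : P.bd Xo (Finset.Icc 0 J) st
        (fun i => lam J i * p * 1 ^ P.K / (1 * (1 + 3 * η) ^ 0)) = ∅ := by
      rw [Finset.eq_empty_iff_forall_notMem]
      intro x hx
      obtain ⟨h2, i, hi, h3⟩ := P.mem_bd.1 hx
      have h4 := hdeg x h2 i (Finset.mem_Icc.1 hi).2
      have h5 : lam J i * p * 1 ^ P.K / (1 * (1 + 3 * η) ^ 0) = lam J i * p := by simp
      rw [h5] at h3
      linarith
    rw [h1]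
    simp

/-- the numbers of the nibble -/
structure Num (p η δ s : ℝ) (J : ℕ) : Prop where
  hp : 0 < p
  hη : η = 1 / (6 * ((J : ℝ) + 1))
  hs : s = Real.exp (-(2 * (J : ℝ) * P.K))
  hD : (Fintype.card D : ℝ) ≤ P.g * p
  hX : (Fintype.card X : ℝ) ≤ P.K * p
  hδ : δ = ((P.g : ℝ) + P.K * (J + 1)) * (98 * P.g * P.K ^ 2 * 2 ^ J / s ^ 2) / η ^ 2
  h1 : 32 * (P.g : ℝ) * P.K ^ 2 ≤ p * s ^ 2
  h2 : (P.g : ℝ) * (J * δ) ≤ 4 * η * (1 / 2 ^ J) * (p * s)

variable {P} {p η δ s : ℝ} {J : ℕ}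

theorem Num.facts (h : P.Num p η δ s J) : 0 < η ∧ η ≤ 1 / 6 ∧ 0 < s ∧ s ≤ 1 ∧ 0 < δ ∧ 32 ≤ p * s ∧
    J * δ ≤ 4 * η * (p * s) ∧ J * δ ≤ p * s := by
  have hη0 : 0 < η := by rw [h.hη]; positivity
  have hη1 : η ≤ 1 / 6 := by
    rw [h.hη]
    refine one_div_le_one_div_of_le (by norm_num) ?_
    have : (0 : ℝ) ≤ J := Nat.cast_nonneg J
    linarith
  have hs0 : 0 < s := by rw [h.hs]; exact Real.exp_pos _
  have hs1 : s ≤ 1 := by
    rw [h.hs]
    refine Real.exp_le_one_iff.2 ?_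
    have : (0 : ℝ) ≤ 2 * J * P.K := by positivity
    linarith
  have hg1 : (1 : ℝ) ≤ P.g := by exact_mod_cast P.hg1
  have hK1 : (1 : ℝ) ≤ P.K := by exact_mod_cast P.hK1
  have hδ0 : 0 < δ := by rw [h.hδ]; positivity
  have hps : 32 ≤ p * s := by
    have h1 := h.h1
    have h2 : p * s ^ 2 ≤ p * s := by
      refine mul_le_mul_of_nonneg_left ?_ h.hp.le
      calc s ^ 2 = s * s := sq s
        _ ≤ s * 1 := mul_le_mul_of_nonneg_left hs1 hs0.le
        _ = s := mul_one s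
    have h3 : (1 : ℝ) ≤ P.g * P.K ^ 2 := by
      calc (1 : ℝ) = 1 * 1 ^ 2 := by norm_num
        _ ≤ P.g * P.K ^ 2 := mul_le_mul hg1 (pow_le_pow_left₀ (by norm_num) hK1 2) (by norm_num) (by linarith)
    linarith
  have h3 : J * δ ≤ 4 * η * (p * s) := by
    have hJδ : 0 ≤ J * δ := by positivity
    have h4 : (1 : ℝ) / 2 ^ J ≤ 1 := by
      rw [div_le_one (by positivity)]
      exact one_le_pow₀ (by norm_num)
    calc J * δ = 1 * (J * δ) := (one_mul _).symm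
      _ ≤ P.g * (J * δ) := mul_le_mul_of_nonneg_right hg1 hJδ
      _ ≤ 4 * η * (1 / 2 ^ J) * (p * s) := h.h2
      _ ≤ 4 * η * 1 * (p * s) := by
          refine mul_le_mul_of_nonneg_right (mul_le_mul_of_nonneg_left h4 (by positivity)) (by linarith)
      _ = 4 * η * (p * s) := by ring
  refine ⟨hη0, hη1, hs0, hs1, hδ0, hps, h3, h3.trans ?_⟩
  have h4 : 4 * η ≤ 1 := by linarith
  calc 4 * η * (p * s) ≤ 1 * (p * s) := mul_le_mul_of_nonneg_right h4 (by linarith)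
    _ = p * s := one_mul _

/-- the error factor is at most `2` -/
theorem Num.E_le (h : P.Num p η δ s J) (j : ℕ) (hj : j ≤ J) : 1 ≤ (1 + 3 * η) ^ j ∧ (1 + 3 * η) ^ j ≤ 2 := by
  obtain ⟨hη0, _, _⟩ := h.facts
  refine ⟨one_le_pow₀ (by linarith), ?_⟩
  have h1 : (1 + 3 * η) ^ j ≤ Real.exp (1 / 2) := by
    have h2 : 1 + 3 * η ≤ Real.exp (3 * η) := by
      have := Real.add_one_le_exp (3 * η)
      linarith
    calc (1 + 3 * η) ^ j ≤ (Real.exp (3 * η)) ^ j := pow_le_pow_left₀ (by linarith) h2 j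
      _ = Real.exp (j * (3 * η)) := (Real.exp_nat_mul _ _).symm
      _ ≤ Real.exp (1 / 2) := by
          refine Real.exp_le_exp.2 ?_
          have h3 : (j : ℝ) ≤ J := by exact_mod_cast hj
          rw [h.hη]
          have h4 : (j : ℝ) * (3 * (1 / (6 * ((J : ℝ) + 1)))) = j / ((J : ℝ) + 1) * (1 / 2) := by
            field_simp
            ring
          rw [h4]
          have h5 : (j : ℝ) / ((J : ℝ) + 1) ≤ 1 := by
            rw [div_le_one (by positivity)]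
            linarith
          linarith
  have h2 : Real.exp (1 / 2) ≤ 2 := by
    have h3 : Real.exp (1 / 2) ^ 2 = Real.exp 1 := by
      rw [← Real.exp_nat_mul]
      congr 1
      norm_num
    have h4 := Real.exp_one_lt_d9
    have h5 : Real.exp (1 / 2) ^ 2 ≤ 2 ^ 2 := by
      rw [h3]
      linarith
    exact le_of_sq_le_sq h5
  exact h1.trans h2
where
  le_of_sq_le_sq {a : ℝ} (h : a ^ 2 ≤ 2 ^ 2) : a ≤ 2 := by
    nlinarith

theorem Num.powK (h : P.Num p η δ s J) {a : ℝ} {i : ℕ} (hi : i ≤ J) (ha : Real.exp (-(2 * (i : ℝ))) ≤ a) :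
    s ≤ a ^ P.K := by
  have h1 : (Real.exp (-(2 * (i : ℝ)))) ^ P.K ≤ a ^ P.K := pow_le_pow_left₀ (Real.exp_pos _).le ha _
  refine le_trans ?_ h1
  rw [h.hs, ← Real.exp_nat_mul]
  refine Real.exp_le_exp.2 ?_
  have h2 : (i : ℝ) ≤ J := by exact_mod_cast hi
  have h3 : (i : ℝ) * P.K ≤ J * P.K := mul_le_mul_of_nonneg_right h2 (Nat.cast_nonneg _)
  linarith

/-- `(1 - 1 / N) ^ n` -/
theorem q_bounds (N n : ℕ) (hN : 2 ≤ N) : (1 - 1 / (N : ℝ)) ^ n ≤ Real.exp (-(n / N)) ∧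
    Real.exp (-(2 * (n / N))) ≤ (1 - 1 / (N : ℝ)) ^ n := by
  have hNR : (2 : ℝ) ≤ N := by exact_mod_cast hN
  have hN0 : (0 : ℝ) < N := by linarith
  obtain ⟨x, hx⟩ : ∃ x : ℝ, x = 1 / (N : ℝ) := ⟨_, rfl⟩
  have hx0 : 0 < x := by rw [hx]; positivity
  have hx1 : x ≤ 1 / 2 := by rw [hx]; exact one_div_le_one_div_of_le (by norm_num) hNR
  rw [← hx]
  constructor
  · have h1 : 1 - x ≤ Real.exp (-x) := by
      have := Real.add_one_le_exp (-x)
      linarith
    calc (1 - x) ^ n ≤ (Real.exp (-x)) ^ n := pow_le_pow_left₀ (by linarith) h1 n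
      _ = Real.exp (-(n / N)) := by
          rw [← Real.exp_nat_mul, hx]
          congr 1
          ring
  · have h1 : Real.exp (-(2 * x)) ≤ 1 - x := by
      have h2 : 1 + 2 * x ≤ Real.exp (2 * x) := by
        have := Real.add_one_le_exp (2 * x)
        linarith
      have h3 : 1 ≤ (1 - x) * (1 + 2 * x) := by nlinarith
      have h4 : 1 ≤ (1 - x) * Real.exp (2 * x) :=
        h3.trans (mul_le_mul_of_nonneg_left h2 (by linarith))
      have h5 : Real.exp (-(2 * x)) * Real.exp (2 * x) = 1 := by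
        rw [← Real.exp_add, neg_add_cancel, Real.exp_zero]
      refine le_of_mul_le_mul_right ?_ (Real.exp_pos (2 * x))
      rw [h5]
      exact h4
    calc Real.exp (-(2 * (n / N))) = (Real.exp (-(2 * x))) ^ n := by
          rw [← Real.exp_nat_mul, hx]
          congr 1
          ring
      _ ≤ (1 - x) ^ n := pow_le_pow_left₀ (Real.exp_pos _).le h1 n

theorem sta_succ (h : P.Num p η δ s J) (st : ℕ → Finset D) (hst : ∀ i j, i ≠ j → Disjoint (st i) (st j))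
    (Xo : Finset X) (j : ℕ) (hj : j < J) (Pr : ℝ) (U : Finset X) (e : D → Option V)
    (hS : P.Sta p η δ J st Xo j Pr U e) :
    ∃ (Pr' : ℝ) (U' : Finset X) (e' : D → Option V), P.Sta p η δ J st Xo (j + 1) Pr' U' e' := by
  classical
  obtain ⟨hPr0, hPr1, hPr2, he1, he2, hbp, hbd⟩ := hS
  obtain ⟨hη0, hη1, hs0, hs1, hδ0, hps, hJδ, hJδ2⟩ := h.facts
  obtain ⟨hE1, hE2⟩ := h.E_le j hj.le
  have hp := h.hp
  have hg1 : (1 : ℝ) ≤ P.g := by exact_mod_cast P.hg1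
  have hK1 : (1 : ℝ) ≤ P.K := by exact_mod_cast P.hK1
  obtain ⟨E, hE⟩ : ∃ E : ℝ, E = (1 + 3 * η) ^ j := ⟨_, rfl⟩
  rw [← hE] at hbp hbd hE1 hE2
  have hE0 : 0 < E := by linarith
  obtain ⟨up, hup⟩ : ∃ up : ℝ, up = E * p * Pr ^ P.K := ⟨_, rfl⟩
  rw [← hup] at hbp
  have hPrK : s ≤ Pr ^ P.K := h.powK hj.le hPr2
  have ha : p * s ≤ p * Pr ^ P.K := mul_le_mul_of_nonneg_left hPrK hp.le
  have hupa : p * Pr ^ P.K ≤ up := by
    rw [hup, mul_assoc]
    have : 0 ≤ p * Pr ^ P.K := by positivity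
    calc p * Pr ^ P.K = 1 * (p * Pr ^ P.K) := (one_mul _).symm
      _ ≤ E * (p * Pr ^ P.K) := mul_le_mul_of_nonneg_right hE1 this
  have hup2 : up ≤ 2 * (p * Pr ^ P.K) := by
    rw [hup, mul_assoc]
    exact mul_le_mul_of_nonneg_right hE2 (by positivity)
  have hups : p * s ≤ up := ha.trans hupa
  obtain ⟨N, hN⟩ : ∃ N : ℕ, N = ⌊up⌋₊ := ⟨_, rfl⟩
  have hNu : (N : ℝ) ≤ up := by
    rw [hN]
    exact Nat.floor_le (by linarith)
  have hNu' : up < N + 1 := by
    rw [hN]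
    exact Nat.lt_floor_add_one up
  have hNps : p * s / 2 ≤ N := by linarith
  have hN2R : (2 : ℝ) ≤ N := by linarith
  have hN2 : 2 ≤ N := by exact_mod_cast hN2R
  have hN0 : (0 : ℝ) < N := by linarith
  obtain ⟨q, hq⟩ : ∃ q : ℝ, q = (1 - 1 / (N : ℝ)) ^ N := ⟨_, rfl⟩
  obtain ⟨hqb1, hqb2⟩ := q_bounds N N hN2
  rw [← hq, div_self hN0.ne'] at hqb1 hqb2
  rw [mul_one] at hqb2
  have hq0 : 0 < q := (Real.exp_pos _).trans_le hqb2
  have hq1 : q ≤ 1 := hqb1.trans (Real.exp_le_one_iff.2 (by norm_num))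
  have hPrq1 : Pr * q ≤ Real.exp (-((j + 1 : ℕ) : ℝ)) := by
    calc Pr * q ≤ Real.exp (-(j : ℝ)) * Real.exp (-1) :=
          mul_le_mul hPr1 hqb1 hq0.le (Real.exp_pos _).le
      _ = Real.exp (-((j + 1 : ℕ) : ℝ)) := by
          rw [← Real.exp_add]
          congr 1
          push_cast
          ring
  have hPrq2 : Real.exp (-(2 * ((j + 1 : ℕ) : ℝ))) ≤ Pr * q := by
    calc Real.exp (-(2 * ((j + 1 : ℕ) : ℝ))) = Real.exp (-(2 * (j : ℝ))) * Real.exp (-2) := by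
          rw [← Real.exp_add]
          congr 1
          push_cast
          ring
      _ ≤ Pr * q := mul_le_mul hPr2 hqb2 (Real.exp_pos _).le hPr0.le
  have hPrqK : s ≤ (Pr * q) ^ P.K := h.powK hj hPrq2
  have hPrle : Pr ≤ 1 := hPr1.trans (Real.exp_le_one_iff.2 (by
    have : (0 : ℝ) ≤ j := Nat.cast_nonneg j
    linarith))
  have hPr2j : Pr * 2 ^ j ≤ 1 := by
    have h1 : (2 : ℝ) ^ j ≤ Real.exp j := by
      have h2 : (2 : ℝ) ≤ Real.exp 1 := by
        have := Real.add_one_le_exp (1 : ℝ)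
        linarith
      calc (2 : ℝ) ^ j ≤ (Real.exp 1) ^ j := pow_le_pow_left₀ (by norm_num) h2 j
        _ = Real.exp j := by rw [← Real.exp_nat_mul, mul_one]
    calc Pr * 2 ^ j ≤ Real.exp (-(j : ℝ)) * Real.exp j := mul_le_mul hPr1 h1 (by positivity) (Real.exp_pos _).le
      _ = 1 := by rw [← Real.exp_add, neg_add_cancel, Real.exp_zero]
  -- the numbers
  obtain ⟨ζ, hζ⟩ : ∃ ζ : ℝ, ζ = 32 * (P.g : ℝ) * P.K ^ 2 / (p * s ^ 2) := ⟨_, rfl⟩
  have hpss : 0 < p * s ^ 2 := by positivity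
  have hpsl : p * s ^ 2 ≤ p * s := by
    refine mul_le_mul_of_nonneg_left ?_ hp.le
    calc s ^ 2 = s * s := sq s
      _ ≤ s * 1 := mul_le_mul_of_nonneg_left hs1 hs0.le
      _ = s := mul_one s
  have hz1 : ζ ≤ 1 := by
    rw [hζ, div_le_one hpss]
    exact h.h1
  have hz0 : 8 * (P.g : ℝ) * (P.K : ℝ) ^ 2 / N + 4 * (Fintype.card D : ℝ) * (P.K : ℝ) ^ 2 / (N : ℝ) ^ 2 ≤ ζ := by
    have h1 : 8 * (P.g : ℝ) * (P.K : ℝ) ^ 2 / N ≤ 16 * P.g * P.K ^ 2 / (p * s ^ 2) := by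
      rw [div_le_div_iff₀ hN0 hpss]
      have h2 : p * s ^ 2 ≤ 2 * N := by linarith
      have h3 : 0 ≤ 8 * (P.g : ℝ) * (P.K : ℝ) ^ 2 := by positivity
      calc 8 * (P.g : ℝ) * (P.K : ℝ) ^ 2 * (p * s ^ 2) ≤ 8 * (P.g : ℝ) * (P.K : ℝ) ^ 2 * (2 * N) :=
            mul_le_mul_of_nonneg_left h2 h3
        _ = 16 * P.g * P.K ^ 2 * N := by ring
    have h2 : 4 * (Fintype.card D : ℝ) * (P.K : ℝ) ^ 2 / (N : ℝ) ^ 2 ≤ 16 * P.g * P.K ^ 2 / (p * s ^ 2) := by
      rw [div_le_div_iff₀ (by positivity) hpss]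
      have h3 : (p * s) ^ 2 ≤ (2 * N) ^ 2 := pow_le_pow_left₀ (by positivity) (by linarith) 2
      have h4 : 4 * (Fintype.card D : ℝ) * (P.K : ℝ) ^ 2 ≤ 4 * (P.g * p) * (P.K : ℝ) ^ 2 :=
        mul_le_mul_of_nonneg_right (mul_le_mul_of_nonneg_left h.hD (by norm_num)) (by positivity)
      calc 4 * (Fintype.card D : ℝ) * (P.K : ℝ) ^ 2 * (p * s ^ 2) ≤ 4 * (P.g * p) * (P.K : ℝ) ^ 2 * (p * s ^ 2) :=
            mul_le_mul_of_nonneg_right h4 hpss.le
        _ = 4 * P.g * P.K ^ 2 * (p * s) ^ 2 := by ring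
        _ ≤ 4 * P.g * P.K ^ 2 * (2 * N) ^ 2 := mul_le_mul_of_nonneg_left h3 (by positivity)
        _ = 16 * P.g * P.K ^ 2 * (N : ℝ) ^ 2 := by ring
    have h3 : ζ = 16 * P.g * P.K ^ 2 / (p * s ^ 2) + 16 * P.g * P.K ^ 2 / (p * s ^ 2) := by
      rw [hζ]
      ring
    rw [h3]
    exact add_le_add h1 h2
  obtain ⟨b, hb⟩ : ∃ b : ℝ, b = j * δ := ⟨_, rfl⟩
  rw [← hb] at hbp hbd
  have hjJ : (j : ℝ) ≤ J := by exact_mod_cast hj.le
  have hbJ : b ≤ J * δ := by
    rw [hb]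
    exact mul_le_mul_of_nonneg_right hjJ hδ0.le
  have hb0 : 0 ≤ b := by rw [hb]; positivity
  have h2J0 : (0 : ℝ) < 2 ^ J := by positivity
  have h2J : (1 : ℝ) / 2 ^ J ≤ 1 / 2 := by
    refine one_div_le_one_div_of_le (by norm_num) ?_
    calc (2 : ℝ) = 2 ^ 1 := (pow_one 2).symm
      _ ≤ 2 ^ J := pow_le_pow_right₀ (by norm_num) (by omega)
  have hgb : P.g * b ≤ 4 * η * (1 / 2 ^ J) * (p * s) :=
    (mul_le_mul_of_nonneg_left hbJ (by linarith)).trans h.h2
  have hb2 : b ≤ 2 * η * (p * s) := by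
    have h1 : b ≤ P.g * b := by
      calc b = 1 * b := (one_mul b).symm
        _ ≤ P.g * b := mul_le_mul_of_nonneg_right hg1 hb0
    have h2 : 4 * η * (1 / 2 ^ J) * (p * s) ≤ 4 * η * (1 / 2) * (p * s) :=
      mul_le_mul_of_nonneg_right (mul_le_mul_of_nonneg_left h2J (by positivity)) (by linarith)
    linarith
  obtain ⟨lo, hlo⟩ : ∃ lo : ℕ → ℝ, lo = fun i => lam J i * p * Pr ^ P.K / (Pr * E) := ⟨_, rfl⟩
  rw [← hlo] at hbd
  have hPE : 0 < Pr * E := by positivity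
  have hPE2 : Pr * E ≤ 2 := by
    calc Pr * E ≤ 1 * 2 := mul_le_mul hPrle hE2 hE0.le (by norm_num)
      _ = 2 := one_mul 2
  have hloi : ∀ i, i ≤ J → 4 * (1 / 2 ^ J) * (p * Pr ^ P.K) ≤ lo i := by
    intro i hi
    rw [hlo]
    show _ ≤ lam J i * p * Pr ^ P.K / (Pr * E)
    rw [le_div_iff₀ hPE]
    have h1 := lam_ge J i hi
    have h2 : 0 ≤ p * Pr ^ P.K := by positivity
    calc 4 * (1 / 2 ^ J) * (p * Pr ^ P.K) * (Pr * E) ≤ 4 * (1 / 2 ^ J) * (p * Pr ^ P.K) * 2 :=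
          mul_le_mul_of_nonneg_left hPE2 (by positivity)
      _ = 8 / 2 ^ J * (p * Pr ^ P.K) := by ring
      _ ≤ lam J i * (p * Pr ^ P.K) := mul_le_mul_of_nonneg_right h1 h2
      _ = lam J i * p * Pr ^ P.K := by ring
  have hn : (N : ℝ) + b ≤ lo j := by
    have h1 : b ≤ p * Pr ^ P.K := by linarith
    have h2 : 4 * (p * Pr ^ P.K) ≤ lo j := by
      rw [hlo]
      show _ ≤ lam J j * p * Pr ^ P.K / (Pr * E)
      have h3 : lam J j = 8 / 2 ^ j := by
        unfold lam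
        rw [if_neg (by omega)]
      rw [h3, le_div_iff₀ hPE]
      have h4 : 4 * (Pr * E) ≤ 8 / 2 ^ j := by
        rw [le_div_iff₀ (by positivity)]
        calc 4 * (Pr * E) * 2 ^ j = 4 * (Pr * 2 ^ j) * E := by ring
          _ ≤ 4 * 1 * 2 := mul_le_mul (mul_le_mul_of_nonneg_left hPr2j (by norm_num)) hE2 hE0.le (by norm_num)
          _ = 8 := by norm_num
      calc 4 * (p * Pr ^ P.K) * (Pr * E) = 4 * (Pr * E) * (p * Pr ^ P.K) := by ring
        _ ≤ 8 / 2 ^ j * (p * Pr ^ P.K) := mul_le_mul_of_nonneg_right h4 (by positivity)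
        _ = 8 / 2 ^ j * p * Pr ^ P.K := by ring
    linarith
  have hqK0 : 0 < q ^ P.K := pow_pos hq0 _
  have hupq : up * q ^ P.K = E * (p * (Pr * q) ^ P.K) := by
    rw [hup, mul_pow]
    ring
  have hupqs : p * s ≤ up * q ^ P.K := by
    rw [hupq]
    have h1 : p * s ≤ p * (Pr * q) ^ P.K := mul_le_mul_of_nonneg_left hPrqK hp.le
    calc p * s = 1 * (p * s) := (one_mul _).symm
      _ ≤ E * (p * (Pr * q) ^ P.K) := mul_le_mul hE1 h1 (by positivity) hE0.le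
  have hI : Finset.Icc (j + 1) J ⊆ Finset.Icc j J := Finset.Icc_subset_Icc_left (by omega)
  have hηlo : ∀ i ∈ Finset.Icc (j + 1) J, P.g * b ≤ η * lo i := by
    intro i hi
    have h1 := hloi i (Finset.mem_Icc.1 hi).2
    have h2 : 4 * (1 / 2 ^ J) * (p * s) ≤ 4 * (1 / 2 ^ J) * (p * Pr ^ P.K) :=
      mul_le_mul_of_nonneg_left ha (by positivity)
    calc P.g * b ≤ 4 * η * (1 / 2 ^ J) * (p * s) := hgb
      _ = η * (4 * (1 / 2 ^ J) * (p * s)) := by ring
      _ ≤ η * lo i := mul_le_mul_of_nonneg_left (h2.trans h1) hη0.le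
  obtain ⟨e', U', hU', hx1, hx2, hx3, hx4⟩ := P.step U (Finset.Icc j J) (Finset.Icc (j + 1) J) hI st lo
    (fun i => lam J i * p * (Pr * q) ^ P.K / (Pr * q * (1 + 3 * η) ^ (j + 1))) j
    (Finset.mem_Icc.2 ⟨le_refl j, hj.le⟩) up ((1 + 3 * η) ^ (j + 1) * p * (Pr * q) ^ P.K) b δ ζ η
    (p * s * (1 / 2 ^ J)) q N N hN2 hNu hNu' hz0 hz1 hq hη0 (by linarith) (by positivity) hbp hbd hn
    (by
      have h1 : (1 + 3 * η) ^ (j + 1) * p * (Pr * q) ^ P.K = up * q ^ P.K * (1 + 3 * η) := by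
        rw [hupq, pow_succ, ← hE]
        ring
      rw [h1]
      have h2 : b ≤ 2 * η * (up * q ^ P.K) :=
        hb2.trans (mul_le_mul_of_nonneg_left hupqs (by positivity))
      linarith)
    (by
      have h1 : p * s * (1 / 2 ^ J) ≤ p * s * 1 :=
        mul_le_mul_of_nonneg_left (h2J.trans (by norm_num)) (by linarith)
      linarith)
    (by
      intro i hi
      have h1 := hηlo i hi
      have hloe : lam J i * p * (Pr * q) ^ P.K / (Pr * q * (1 + 3 * η) ^ (j + 1)) * q =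
          lo i * q ^ P.K / (1 + 3 * η) := by
        rw [hlo]
        show _ = lam J i * p * Pr ^ P.K / (Pr * E) * q ^ P.K / (1 + 3 * η)
        rw [mul_pow, pow_succ, ← hE]
        field_simp
      show lam J i * p * (Pr * q) ^ P.K / (Pr * q * (1 + 3 * η) ^ (j + 1)) * q ≤ _
      rw [hloe, div_le_iff₀ (by linarith)]
      have hl0 : 0 ≤ lo i := by
        have h2 := hloi i (Finset.mem_Icc.1 hi).2
        refine le_trans ?_ h2
        positivity
      have h2 : (1 - η) * lo i ≤ lo i - P.g * b := by linarith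
      have h3 : 1 ≤ (1 - η) * (1 - η) * (1 + 3 * η) := by nlinarith [sq_nonneg η, mul_pos hη0 hη0]
      calc lo i * q ^ P.K = 1 * (lo i * q ^ P.K) := (one_mul _).symm
        _ ≤ (1 - η) * (1 - η) * (1 + 3 * η) * (lo i * q ^ P.K) :=
            mul_le_mul_of_nonneg_right h3 (by positivity)
        _ = (1 - η) * ((1 - η) * lo i * q ^ P.K) * (1 + 3 * η) := by ring
        _ ≤ (1 - η) * ((lo i - P.g * b) * q ^ P.K) * (1 + 3 * η) := by
            refine mul_le_mul_of_nonneg_right ?_ (by linarith)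
            exact mul_le_mul_of_nonneg_left (mul_le_mul_of_nonneg_right h2 hqK0.le) (by linarith))
    (by
      intro i hi
      have h1 := hηlo i hi
      have h2 := hloi i (Finset.mem_Icc.1 hi).2
      have h3 : (5 / 6) * lo i ≤ lo i - P.g * b := by
        have hl0 : 0 ≤ lo i := by
          refine le_trans ?_ h2
          positivity
        have h4 : η * lo i ≤ 1 / 6 * lo i := mul_le_mul_of_nonneg_right hη1 hl0
        linarith
      have h4 : 4 * (1 / 2 ^ J) * (p * s) ≤ lo i * q ^ P.K := by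
        have h5 : 4 * (1 / 2 ^ J) * (p * Pr ^ P.K) * q ^ P.K ≤ lo i * q ^ P.K :=
          mul_le_mul_of_nonneg_right h2 hqK0.le
        refine le_trans ?_ h5
        have h6 : 4 * (1 / 2 ^ J) * (p * Pr ^ P.K) * q ^ P.K = 4 * (1 / 2 ^ J) * (p * (Pr * q) ^ P.K) := by
          rw [mul_pow]
          ring
        rw [h6]
        exact mul_le_mul_of_nonneg_left (mul_le_mul_of_nonneg_left hPrqK hp.le) (by positivity)
      have h5 : p * s * (1 / 2 ^ J) * q ≤ p * s * (1 / 2 ^ J) * 1 :=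
        mul_le_mul_of_nonneg_left hq1 (by positivity)
      have h6 : (5 / 6) * lo i * q ^ P.K ≤ (lo i - P.g * b) * q ^ P.K :=
        mul_le_mul_of_nonneg_right h3 hqK0.le
      have h7 : 0 ≤ 1 / 2 ^ J * (p * s) := by positivity
      linarith)
    (by
      have hc : (((Finset.Icc (j + 1) J).card : ℕ) : ℝ) ≤ (J : ℝ) + 1 := by
        rw [Nat.card_Icc]
        have h1 : J + 1 - (j + 1) ≤ J + 1 := Nat.sub_le _ _
        exact_mod_cast h1
      have hτ : (3 * ζ + 2 * P.g * P.K / (p * s * (1 / 2 ^ J))) / η ^ 2 ≤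
          (98 * P.g * P.K ^ 2 * 2 ^ J / (p * s ^ 2)) / η ^ 2 := by
        refine div_le_div_of_nonneg_right ?_ (by positivity)
        have h1 : 3 * ζ ≤ 96 * P.g * P.K ^ 2 * 2 ^ J / (p * s ^ 2) := by
          rw [hζ, ← mul_div_assoc]
          refine div_le_div_of_nonneg_right ?_ hpss.le
          have h2 : (1 : ℝ) ≤ 2 ^ J := one_le_pow₀ (by norm_num)
          calc 3 * (32 * (P.g : ℝ) * P.K ^ 2) = 96 * (P.g : ℝ) * P.K ^ 2 * 1 := by ring
            _ ≤ 96 * (P.g : ℝ) * P.K ^ 2 * 2 ^ J := mul_le_mul_of_nonneg_left h2 (by positivity)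
        have h2 : 2 * P.g * P.K / (p * s * (1 / 2 ^ J)) ≤ 2 * P.g * P.K ^ 2 * 2 ^ J / (p * s ^ 2) := by
          rw [div_le_div_iff₀ (by positivity) hpss]
          have h3 : (P.K : ℝ) ≤ P.K ^ 2 := by
            calc (P.K : ℝ) = P.K * 1 := (mul_one _).symm
              _ ≤ P.K * P.K := mul_le_mul_of_nonneg_left hK1 (by linarith)
              _ = P.K ^ 2 := by ring
          calc 2 * (P.g : ℝ) * P.K * (p * s ^ 2) ≤ 2 * P.g * P.K ^ 2 * (p * s) := by
                refine mul_le_mul ?_ hpsl hpss.le (by positivity)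
                exact mul_le_mul_of_nonneg_left h3 (by positivity)
            _ = 2 * P.g * P.K ^ 2 * 2 ^ J * (p * s * (1 / 2 ^ J)) := by field_simp
        calc 3 * ζ + 2 * P.g * P.K / (p * s * (1 / 2 ^ J)) ≤
            96 * P.g * P.K ^ 2 * 2 ^ J / (p * s ^ 2) + 2 * P.g * P.K ^ 2 * 2 ^ J / (p * s ^ 2) := add_le_add h1 h2
          _ = 98 * P.g * P.K ^ 2 * 2 ^ J / (p * s ^ 2) := by ring
      have hc2 : (Fintype.card D : ℝ) + Fintype.card X * (Finset.Icc (j + 1) J).card ≤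
          (P.g + P.K * (J + 1)) * p := by
        have h1 : (Fintype.card X : ℝ) * (Finset.Icc (j + 1) J).card ≤ P.K * p * (J + 1) :=
          mul_le_mul h.hX hc (Nat.cast_nonneg _) (by positivity)
        have h2 := h.hD
        calc (Fintype.card D : ℝ) + Fintype.card X * (Finset.Icc (j + 1) J).card ≤
            P.g * p + P.K * p * (J + 1) := add_le_add h2 h1
          _ = (P.g + P.K * (J + 1)) * p := by ring
      have hζ0 : 0 ≤ ζ := by rw [hζ]; positivity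
      calc ((Fintype.card D : ℝ) + Fintype.card X * (Finset.Icc (j + 1) J).card) *
          ((3 * ζ + 2 * P.g * P.K / (p * s * (1 / 2 ^ J))) / η ^ 2) ≤
          (P.g + P.K * (J + 1)) * p * ((98 * P.g * P.K ^ 2 * 2 ^ J / (p * s ^ 2)) / η ^ 2) :=
            mul_le_mul hc2 hτ (by positivity) (by positivity)
        _ = δ := by
            rw [h.hδ]
            field_simp)
  refine ⟨Pr * q, U', fun d => if d ∈ st j then e' d else e d, by positivity, hPrq1, hPrq2, ?_, ?_, ?_, ?_⟩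
  · intro d v hv
    by_cases hd : d ∈ st j
    · simp only [if_pos hd] at hv
      refine ⟨(hx1 d v hv).1, fun i hi hdi => ?_⟩
      exact Finset.disjoint_left.1 (hst j i (by omega)) hd hdi
    · simp only [if_neg hd] at hv
      obtain ⟨h1, h2⟩ := he1 d v hv
      exact ⟨h1, fun i hi => h2 i (by omega)⟩
  · intro x hx hxU
    by_cases hxU2 : x ∈ U
    · obtain ⟨d, hd⟩ := hx2 x hxU2 hxU
      refine ⟨d, ?_⟩
      simp only [if_pos (hx1 d _ hd).2]
      exact hd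
    · obtain ⟨d, hd⟩ := he2 x hx hxU2
      refine ⟨d, ?_⟩
      simp only [if_neg ((he1 d _ hd).2 j (le_refl j))]
      exact hd
  · refine hx3.trans (le_of_eq ?_)
    rw [hb]
    push_cast
    ring
  · refine hx4.trans (le_of_eq ?_)
    rw [hb]
    push_cast
    ring

end Dat

end H19NB
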